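import Pool.Agent.TH195.J189

set_option autoImplicit false

open MeasureTheory Set Filter Topology
open scoped Real ContDiff

namespace Pool.Agent.TH195.J245

open Pool.Agent.TH195.J189

noncomputable def ell1 (E : ℝ → ℂ) : ℂ :=
  (1 / (2 * π : ℝ) : ℂ) * ∫ θ in (0:ℝ)..(2 * π), E θ * Complex.exp (-(Complex.I * θ)) /
    (1 - (1 / 2) * Complex.exp (-(Complex.I * θ))) ^ 2

theorem ell1_eq_ell (E : ℝ → ℂ) :
    ell1 E = ell (fun θ => E θ * Complex.exp (-(Complex.I * θ)) / D θ) := by
  unfold ell1 ell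
  congr 1
  apply intervalIntegral.integral_congr
  intro θ _
  have hD := D_ne θ
  simp only []
  unfold D at hD ⊢
  field_simp

theorem ell1_bound {E : ℝ → ℂ} {c : ℝ} (hc : ∀ θ, ‖E θ‖ ≤ c) : ‖ell1 E‖ ≤ 4 * c := by
  have hc0 : 0 ≤ c := le_trans (norm_nonneg _) (hc 0)
  have h1 : ∀ θ : ℝ, ‖E θ * Complex.exp (-(Complex.I * θ)) / D θ‖ ≤ 2 * c := by
    intro θ
    have h2 := D_norm θ
    rw [norm_div, norm_mul, norm_exp_neg, mul_one, div_le_iff₀ (by linarith)]
    have := hc θ
    nlinarith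
  rw [ell1_eq_ell]
  have := ell_bound h1
  linarith

theorem tw_cont {E : ℝ → ℂ} (hE : Continuous E) :
    Continuous (fun θ : ℝ => E θ * Complex.exp (-(Complex.I * θ)) / D θ) := by
  apply Continuous.div _ D_cont D_ne
  apply hE.mul
  fun_prop

theorem ell1_sub {E F : ℝ → ℂ} (hE : Continuous E) (hF : Continuous F) :
    ell1 (fun θ => E θ - F θ) = ell1 E - ell1 F := by
  rw [ell1_eq_ell, ell1_eq_ell, ell1_eq_ell, ← ell_sub (tw_cont hE) (tw_cont hF)]
  congr 1
  funext θ
  ring

theorem ell1_smul (c : ℂ) (E : ℝ → ℂ) : ell1 (fun θ => c * E θ) = c * ell1 E := by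
  rw [ell1_eq_ell, ell1_eq_ell, ← ell_smul]
  congr 1
  funext θ
  ring

theorem ell1_sum {ι : Type} (s : Finset ι) (E : ι → ℝ → ℂ) (hE : ∀ i, Continuous (E i)) :
    ell1 (fun θ => ∑ i ∈ s, E i θ) = ∑ i ∈ s, ell1 (E i) := by
  have h := ell_sum s (fun i θ => E i θ * Complex.exp (-(Complex.I * θ)) / D θ)
    (fun i => tw_cont (hE i))
  rw [ell1_eq_ell]
  simp_rw [ell1_eq_ell]
  rw [← h]
  congr 1
  funext θ
  rw [Finset.sum_mul, Finset.sum_div]

theorem ell1_rec (j : ℤ) : ell1 (ex j) = (1 / 2) * ell1 (ex (j - 1)) + ell (ex (j - 1)) := by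
  have h1 : ell1 (fun θ => ex j θ - (1 / 2) * ex (j - 1) θ) =
      ell1 (ex j) - (1 / 2) * ell1 (ex (j - 1)) := by
    have hc : Continuous fun θ => (1 / 2 : ℂ) * ex (j - 1) θ := continuous_const.mul (ex_cont _)
    rw [ell1_sub (ex_cont j) hc, ell1_smul]
  have h2 : ell1 (fun θ => ex j θ - (1 / 2) * ex (j - 1) θ) = ell (ex (j - 1)) := by
    rw [ell1_eq_ell]
    congr 1
    funext θ
    have hD := D_ne θ
    rw [div_eq_iff hD]
    unfold D ex
    rw [zpow_sub_one₀ (Complex.exp_ne_zero _), Complex.exp_neg]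
    ring
  rw [h2] at h1
  rw [h1]; ring

theorem ell1_zero : ell1 (ex 0) = 0 := by
  have h : ∀ n : ℕ, ell1 (ex (-n)) = 2 ^ n * ell1 (ex 0) := by
    intro n
    induction n with
    | zero => simp
    | succ n ih =>
      have := ell1_rec (-n)
      have e1 : (-(n : ℤ) - 1) = -1 - (n : ℤ) := by ring
      have e : (-1 - (n : ℤ)) = -((n + 1 : ℕ) : ℤ) := by push_cast; ring
      rw [e1, ell_neg, add_zero, e, ih] at this
      rw [pow_succ]
      linear_combination (-2 : ℂ) * this
  by_contra hne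
  have hpos : 0 < ‖ell1 (ex 0)‖ := norm_pos_iff.mpr hne
  obtain ⟨n, hn⟩ := pow_unbounded_of_one_lt (4 / ‖ell1 (ex 0)‖) (one_lt_two (α := ℝ))
  have h2 := ell1_bound (E := ex (-n)) (c := 1) (fun θ => (norm_ex _ θ).le)
  rw [h n, norm_mul, norm_pow] at h2
  rw [div_lt_iff₀ hpos] at hn
  simp at h2
  linarith

theorem ell1_neg (n : ℕ) : ell1 (ex (-n)) = 0 := by
  induction n with
  | zero => simpa using ell1_zero
  | succ n ih =>
    have := ell1_rec (-n)
    have e1 : (-(n : ℤ) - 1) = -1 - (n : ℤ) := by ring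
    have e : (-1 - (n : ℤ)) = -((n + 1 : ℕ) : ℤ) := by push_cast; ring
    rw [e1, ell_neg, add_zero, e, ih] at this
    linear_combination (-2 : ℂ) * this

theorem ell1_nonneg (n : ℕ) : ell1 (ex n) = n * (1 / 2) ^ (n - 1) := by
  induction n with
  | zero => simpa using ell1_zero
  | succ n ih =>
    have := ell1_rec ((n : ℤ) + 1)
    have e : ((n : ℤ) + 1 - 1) = n := by ring
    rw [e, ih, ell_nonneg] at this
    have e2 : (((n + 1 : ℕ)) : ℤ) = (n : ℤ) + 1 := by push_cast; ring
    rw [e2, this]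
    rcases n with _ | n
    · simp
    · simp only [Nat.add_sub_cancel]
      push_cast
      ring

theorem qK_coeff_one (K : ℕ) : (qK (K + 1)).coeff 1 = 3 / 4 := by
  unfold qK
  rw [Polynomial.coeff_sub, Polynomial.coeff_C_mul, Polynomial.finsetSum_coeff]
  have : ∀ n ∈ Finset.range (K + 1 + 1), ((Polynomial.C (-(1 / 2) : ℂ) * Polynomial.X) ^ n).coeff 1 =
      if n = 1 then -(1 / 2) else 0 := by
    intro n _
    rw [mul_pow, ← Polynomial.C_pow, Polynomial.coeff_C_mul, Polynomial.coeff_X_pow]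
    split_ifs with h1 h2 h2
    · rw [h2]; simp
    · omega
    · omega
    · simp
  rw [Finset.sum_congr rfl this, Finset.sum_ite_eq' (Finset.range (K + 1 + 1)) 1
    (fun _ => (-(1 / 2) : ℂ)), if_pos (by simp), Polynomial.coeff_C, if_neg (by norm_num)]
  norm_num

theorem coeff_one_eq (p : Polynomial ℂ) : p.coeff 1 = (Polynomial.derivative p).eval 0 := by
  rw [← Polynomial.coeff_zero_eq_eval_zero, Polynomial.coeff_derivative]
  simp

theorem seed_approx (E : ℝ → ℂ) (hE : Continuous E) (hper : ∀ x, E (x + 2 * π) = E x)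
    (hℓ : ell E = 1) (ε : ℝ) (hε : 0 < ε) :
    ∃ P Q : Polynomial ℂ, P.coeff 0 = 0 ∧ Q.coeff 0 = 0 ∧ ‖P.coeff 1 - (3 / 4) * ell1 E‖ ≤ ε ∧
      ∀ θ : ℝ, ‖P.eval (Complex.exp (Complex.I * (uu θ : ℂ))) + 1
        + Q.eval (Complex.exp (-(Complex.I * (θ : ℂ)))) - E θ‖ ≤ ε := by
  have hε4 : 0 < ε / 4 := by linarith
  have hε8 : 0 < ε / 8 := by linarith
  obtain ⟨t, ht⟩ := trig_dense E hE hper hε8
  let Tp : Polynomial ℂ := ∑ j ∈ t.support with 0 ≤ j, Polynomial.C (t j) * Polynomial.X ^ j.toNat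
  let Q : Polynomial ℂ := ∑ j ∈ t.support with ¬ 0 ≤ j,
    Polynomial.C (t j) * Polynomial.X ^ (-j).toNat
  have hQ0 : Q.coeff 0 = 0 := by
    simp only [Q]
    rw [Polynomial.finsetSum_coeff]
    apply Finset.sum_eq_zero
    intro j hj
    rw [Finset.mem_filter] at hj
    rw [Polynomial.coeff_C_mul, Polynomial.coeff_X_pow, if_neg, mul_zero]
    omega
  have hTQ : ∀ θ : ℝ, (t.sum fun j c => c * ex j θ) =
      Tp.eval (Complex.exp (Complex.I * (θ : ℂ))) + Q.eval (Complex.exp (-(Complex.I * (θ : ℂ)))) := by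
    intro θ
    simp only [Tp, Q]
    rw [Finsupp.sum, Polynomial.eval_finsetSum, Polynomial.eval_finsetSum,
      ← Finset.sum_filter_add_sum_filter_not t.support (fun j => 0 ≤ j)]
    congr 1
    · apply Finset.sum_congr rfl
      intro j hj
      rw [Finset.mem_filter] at hj
      simp only [Polynomial.eval_mul, Polynomial.eval_C, Polynomial.eval_pow, Polynomial.eval_X]
      congr 1
      unfold ex
      rw [← zpow_natCast, Int.toNat_of_nonneg hj.2]
    · apply Finset.sum_congr rfl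
      intro j hj
      rw [Finset.mem_filter] at hj
      simp only [Polynomial.eval_mul, Polynomial.eval_C, Polynomial.eval_pow, Polynomial.eval_X]
      congr 1
      unfold ex
      rw [← zpow_natCast, Int.toNat_of_nonneg (by omega), Complex.exp_neg, inv_zpow, zpow_neg,
        inv_inv]
  have hellT : ell (fun θ => t.sum fun j c => c * ex j θ) = Tp.eval (1 / 2) := by
    simp only [Finsupp.sum]
    rw [ell_sum _ (fun j θ => t j * ex j θ) (fun j => continuous_const.mul (ex_cont j))]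
    simp only [Tp]
    rw [Polynomial.eval_finsetSum,
      ← Finset.sum_filter_add_sum_filter_not t.support (fun j => 0 ≤ j)]
    have z : ∑ j ∈ t.support with ¬ 0 ≤ j, ell (fun θ => t j * ex j θ) = 0 := by
      apply Finset.sum_eq_zero
      intro j hj
      rw [Finset.mem_filter] at hj
      rw [ell_smul]
      have : ell (ex j) = 0 := by
        have e : j = -1 - ((-1 - j).toNat : ℤ) := by omega
        rw [e]; exact ell_neg _
      rw [this, mul_zero]
    rw [z, add_zero]
    apply Finset.sum_congr rfl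
    intro j hj
    rw [Finset.mem_filter] at hj
    simp only [Polynomial.eval_mul, Polynomial.eval_C, Polynomial.eval_pow, Polynomial.eval_X]
    rw [ell_smul]
    congr 1
    have e : j = (j.toNat : ℤ) := by omega
    conv_lhs => rw [e]
    exact ell_nonneg _
  have hell1T : ell1 (fun θ => t.sum fun j c => c * ex j θ) =
      (Polynomial.derivative Tp).eval (1 / 2) := by
    simp only [Finsupp.sum]
    rw [ell1_sum _ (fun j θ => t j * ex j θ) (fun j => continuous_const.mul (ex_cont j))]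
    simp only [Tp]
    rw [Polynomial.derivative_sum, Polynomial.eval_finsetSum,
      ← Finset.sum_filter_add_sum_filter_not t.support (fun j => 0 ≤ j)]
    have z : ∑ j ∈ t.support with ¬ 0 ≤ j, ell1 (fun θ => t j * ex j θ) = 0 := by
      apply Finset.sum_eq_zero
      intro j hj
      rw [Finset.mem_filter] at hj
      rw [ell1_smul]
      have : ell1 (ex j) = 0 := by
        have e : j = -((-j).toNat : ℤ) := by omega
        rw [e]; exact ell1_neg _
      rw [this, mul_zero]
    rw [z, add_zero]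
    apply Finset.sum_congr rfl
    intro j hj
    rw [Finset.mem_filter] at hj
    rw [Polynomial.derivative_C_mul, Polynomial.derivative_X_pow]
    simp only [Polynomial.eval_mul, Polynomial.eval_C, Polynomial.eval_pow, Polynomial.eval_X]
    rw [ell1_smul]
    congr 1
    have e : j = (j.toNat : ℤ) := by omega
    conv_lhs => rw [e]
    exact ell1_nonneg _
  have hTc : Continuous fun θ => t.sum fun j c => c * ex j θ := by
    simp only [Finsupp.sum]
    apply continuous_finsetSum
    intro j _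
    exact continuous_const.mul (ex_cont j)
  have h1 : ‖Tp.eval (1 / 2) - 1‖ ≤ 2 * (ε / 8) := by
    rw [← hellT, ← hℓ, ← ell_sub hTc hE]
    exact ell_bound (fun θ => (ht θ).le)
  have h1' : ‖(Polynomial.derivative Tp).eval (1 / 2) - ell1 E‖ ≤ 4 * (ε / 8) := by
    rw [← hell1T, ← ell1_sub hTc hE]
    exact ell1_bound (fun θ => (ht θ).le)
  -- uniform continuity
  have hcomp : IsCompact (Metric.closedBall (0 : ℂ) 4) := isCompact_closedBall 0 4
  have huc := hcomp.uniformContinuousOn_of_continuous (f := fun z => Tp.eval z)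
    Tp.continuous.continuousOn
  rw [Metric.uniformContinuousOn_iff] at huc
  obtain ⟨δ, hδ, huc⟩ := huc (ε / 4) hε4
  obtain ⟨K, hK⟩ : ∃ K : ℕ, (1 / 2 : ℝ) ^ K < min (δ * (2 / 3)) 1 :=
    exists_pow_lt_of_lt_one (by positivity) (by norm_num)
  have hKK : (1 / 2 : ℝ) ^ (K + 1) ≤ (1 / 2 : ℝ) ^ K := by
    rw [pow_succ]
    have : (0 : ℝ) < (1 / 2) ^ K := by positivity
    linarith
  have hK1 : (3 / 2 : ℝ) * (1 / 2) ^ (K + 1) < δ := by
    have := lt_of_lt_of_le hK (min_le_left _ _)
    linarith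
  have hK2 : (3 / 2 : ℝ) * (1 / 2) ^ (K + 1) ≤ 3 / 2 := by
    have := lt_of_lt_of_le hK (min_le_right _ _)
    linarith
  refine ⟨Tp.comp (qK (K + 1)) - Polynomial.C (Tp.eval (1 / 2)), Q, ?_, hQ0, ?_, ?_⟩
  · rw [Polynomial.coeff_zero_eq_eval_zero, Polynomial.eval_sub, Polynomial.eval_comp,
      qK_zero, Polynomial.eval_C, sub_self]
  · have e : (Tp.comp (qK (K + 1)) - Polynomial.C (Tp.eval (1 / 2))).coeff 1 =
        (3 / 4) * (Polynomial.derivative Tp).eval (1 / 2) := by
      rw [coeff_one_eq, Polynomial.derivative_sub, Polynomial.derivative_comp,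
        Polynomial.derivative_C, sub_zero, Polynomial.eval_mul, Polynomial.eval_comp, qK_zero,
        ← coeff_one_eq, qK_coeff_one]
    rw [e, ← mul_sub, norm_mul]
    have n1 : ‖(3 / 4 : ℂ)‖ = 3 / 4 := by
      have : (3 / 4 : ℂ) = ((3 / 4 : ℝ) : ℂ) := by push_cast; ring
      rw [this, Complex.norm_real]; norm_num
    rw [n1]
    linarith
  · intro θ
    set w := Complex.exp (Complex.I * (uu θ : ℂ)) with hw
    set z := Complex.exp (Complex.I * (θ : ℂ)) with hz
    have hzn : ‖z‖ = 1 := by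
      rw [hz, show Complex.I * (θ : ℂ) = (θ : ℂ) * Complex.I by ring,
        Complex.norm_exp_ofReal_mul_I]
    have hwn : ‖w‖ = 1 := by
      rw [hw, show Complex.I * (uu θ : ℂ) = (uu θ : ℂ) * Complex.I by ring,
        Complex.norm_exp_ofReal_mul_I]
    have hm : z = (2 * w + 1) / (2 + w) := moebius θ
    have hq := qK_approx (K + 1) hwn
    rw [← hm] at hq
    have hqn : ‖(qK (K + 1)).eval w‖ ≤ 4 := by
      have := norm_add_le ((qK (K + 1)).eval w - z) z
      rw [sub_add_cancel, hzn] at this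
      linarith
    have h2 := huc ((qK (K + 1)).eval w) (by simpa using hqn) z (by simp [hzn])
      (by rw [dist_eq_norm]; linarith)
    rw [dist_eq_norm] at h2
    have h3 := ht θ
    rw [hTQ θ] at h3
    rw [Polynomial.eval_sub, Polynomial.eval_comp, Polynomial.eval_C]
    have e : Tp.eval ((qK (K + 1)).eval w) - Tp.eval (1 / 2) + 1 +
        Q.eval (Complex.exp (-(Complex.I * (θ : ℂ)))) - E θ =
        (Tp.eval ((qK (K + 1)).eval w) - Tp.eval z) + (-(Tp.eval (1 / 2) - 1)) +
        (Tp.eval z + Q.eval (Complex.exp (-(Complex.I * (θ : ℂ)))) - E θ) := by ring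
    rw [e]
    have n1 := norm_add_le ((Tp.eval ((qK (K + 1)).eval w) - Tp.eval z) +
      (-(Tp.eval (1 / 2) - 1)))
      (Tp.eval z + Q.eval (Complex.exp (-(Complex.I * (θ : ℂ)))) - E θ)
    have n2 := norm_add_le (Tp.eval ((qK (K + 1)).eval w) - Tp.eval z) (-(Tp.eval (1 / 2) - 1))
    rw [norm_neg] at n2
    linarith

end Pool.Agent.TH195.J245
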