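import Mathlib

set_option autoImplicit false

open MeasureTheory Set Filter Topology
open scoped Real ContDiff

namespace Pool.Agent.TH195.J190

noncomputable def uu (θ : ℝ) : ℝ := θ + 2 * Real.arctan (Real.sin θ / (2 - Real.cos θ))

noncomputable def ell (E : ℝ → ℂ) : ℂ :=
  (1 / (2 * π : ℝ) : ℂ) * ∫ θ in (0:ℝ)..(2 * π), E θ / (1 - (1 / 2) * Complex.exp (-(Complex.I * θ)))

/-- the denominator -/
noncomputable def D (θ : ℝ) : ℂ := 1 - (1 / 2) * Complex.exp (-(Complex.I * θ))

theorem norm_exp_neg (θ : ℝ) : ‖Complex.exp (-(Complex.I * θ))‖ = 1 := by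
  have : -(Complex.I * (θ : ℂ)) = ((-θ : ℝ) : ℂ) * Complex.I := by push_cast; ring
  rw [this, Complex.norm_exp_ofReal_mul_I]

theorem D_re (θ : ℝ) : 1 / 2 ≤ (D θ).re := by
  have h1 : |(Complex.exp (-(Complex.I * θ))).re| ≤ 1 := by
    have := Complex.abs_re_le_norm (Complex.exp (-(Complex.I * θ)))
    rwa [norm_exp_neg] at this
  have h2 := (abs_le.mp h1).2
  have h3 : (D θ).re = 1 - (1 / 2) * (Complex.exp (-(Complex.I * θ))).re := by
    unfold D
    simp
  rw [h3]; linarith

theorem D_ne (θ : ℝ) : D θ ≠ 0 := by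
  intro h
  have := D_re θ
  rw [h] at this
  norm_num at this

theorem D_norm (θ : ℝ) : 1 / 2 ≤ ‖D θ‖ := le_trans (D_re θ) (Complex.re_le_norm _)

theorem D_cont : Continuous D := by
  unfold D; fun_prop

theorem D_slit (θ : ℝ) : D θ ∈ Complex.slitPlane := by
  left
  have := D_re θ
  linarith

theorem D_deriv (θ : ℝ) : HasDerivAt D ((1 / 2) * (Complex.I * Complex.exp (-(Complex.I * θ)))) θ := by
  have h1 : HasDerivAt (fun t : ℝ => -(Complex.I * (t : ℂ))) (-Complex.I) θ := by
    have h0 : HasDerivAt (fun t : ℝ => (t : ℂ)) 1 θ := by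
      simpa using (hasDerivAt_id θ).ofReal_comp
    have h00 := (h0.const_mul Complex.I).neg
    rw [mul_one] at h00
    exact h00
  have h2 := h1.cexp
  have h3 := (h2.const_mul (1 / 2 : ℂ)).const_sub 1
  have e : -((1 / 2 : ℂ) * (Complex.exp (-(Complex.I * (θ : ℂ))) * -Complex.I)) =
      (1 / 2) * (Complex.I * Complex.exp (-(Complex.I * θ))) := by ring
  rw [e] at h3
  exact h3

/-- the seed before cutting off -/
noncomputable def E0 (θ : ℝ) : ℂ := 4 + Complex.I * (Real.sin θ : ℂ)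

theorem E0_norm (θ : ℝ) : ‖E0 θ‖ ≤ 4.13 := by
  have h : ‖E0 θ‖ ^ 2 = 16 + (Real.sin θ) ^ 2 := by
    rw [← Complex.normSq_eq_norm_sq, Complex.normSq_apply]
    have h1 : (E0 θ).re = 4 := by simp [E0]
    have h2 : (E0 θ).im = Real.sin θ := by
      unfold E0
      rw [Complex.add_im, Complex.mul_im, Complex.ofReal_im, Complex.ofReal_re]
      simp
    rw [h1, h2]; ring
  have h2 : (Real.sin θ) ^ 2 ≤ 1 := Real.sin_sq_le_one θ
  nlinarith [norm_nonneg (E0 θ)]

theorem E0_cont : Continuous E0 := by unfold E0; fun_prop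

theorem key_identity (θ : ℝ) : E0 θ / D θ =
    17 / 4 + (1 / 2) * Complex.exp (Complex.I * θ) +
      (13 / 4) * (((1 / 2) * Complex.exp (-(Complex.I * θ))) / D θ) := by
  have hD := D_ne θ
  have hw : Complex.exp (Complex.I * θ) * Complex.exp (-(Complex.I * θ)) = 1 := by
    rw [← Complex.exp_add]; simp
  have hs : (Real.sin θ : ℂ) = (Complex.exp (-(Complex.I * θ)) - Complex.exp (Complex.I * θ)) * Complex.I / 2 := by
    rw [Complex.ofReal_sin, Complex.sin]
    congr 3
    · congr 1; ring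
    · congr 1; ring
  have hI : Complex.I * Complex.I = -1 := Complex.I_mul_I
  field_simp
  unfold E0
  rw [hs]
  unfold D
  set w := Complex.exp (-(Complex.I * θ)) with hwd
  set v := Complex.exp (Complex.I * θ) with hvd
  have : Complex.I * ((w - v) * Complex.I / 2) = (v - w) / 2 := by
    have : Complex.I * ((w - v) * Complex.I / 2) = (Complex.I * Complex.I) * (w - v) / 2 := by ring
    rw [this, hI]; ring
  rw [this]
  linear_combination (2 : ℂ) * hw

/-- an antiderivative of `E0 / D` -/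
noncomputable def F (θ : ℝ) : ℂ :=
  17 / 4 * (θ : ℂ) + (1 / 2) * (-Complex.I * Complex.exp (Complex.I * θ)) +
    (13 / 4) * (-Complex.I * Complex.log (D θ))

theorem F_deriv (θ : ℝ) : HasDerivAt F (E0 θ / D θ) θ := by
  have h0 : HasDerivAt (fun t : ℝ => (t : ℂ)) 1 θ := by
    simpa using (hasDerivAt_id θ).ofReal_comp
  have h1 : HasDerivAt (fun t : ℝ => 17 / 4 * (t : ℂ)) (17 / 4) θ := by
    have := h0.const_mul (17 / 4 : ℂ)
    rwa [mul_one] at this
  have h2 : HasDerivAt (fun t : ℝ => Complex.exp (Complex.I * (t : ℂ)))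
      (Complex.exp (Complex.I * (θ : ℂ)) * Complex.I) θ := by
    have := (h0.const_mul Complex.I).cexp
    rwa [mul_one] at this
  have h3 : HasDerivAt (fun t : ℝ => Complex.log (D t))
      (((1 / 2) * (Complex.I * Complex.exp (-(Complex.I * θ)))) / D θ) θ :=
    (D_deriv θ).clog_real (D_slit θ)
  have h4 := (h1.add ((h2.const_mul (-Complex.I)).const_mul (1 / 2 : ℂ))).add
    ((h3.const_mul (-Complex.I)).const_mul (13 / 4 : ℂ))
  have e : 17 / 4 + (1 / 2 : ℂ) * (-Complex.I * (Complex.exp (Complex.I * (θ : ℂ)) * Complex.I)) +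
      (13 / 4 : ℂ) * (-Complex.I * (((1 / 2) * (Complex.I * Complex.exp (-(Complex.I * θ)))) / D θ)) =
      E0 θ / D θ := by
    rw [key_identity]
    have hI : Complex.I * Complex.I = -1 := Complex.I_mul_I
    have e1 : (1 / 2 : ℂ) * (-Complex.I * (Complex.exp (Complex.I * (θ : ℂ)) * Complex.I)) =
        (1 / 2) * Complex.exp (Complex.I * θ) := by
      linear_combination (-(1 / 2 : ℂ) * Complex.exp (Complex.I * (θ : ℂ))) * hI
    have e2 : -Complex.I * (((1 / 2) * (Complex.I * Complex.exp (-(Complex.I * θ)))) / D θ) =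
        ((1 / 2) * Complex.exp (-(Complex.I * θ))) / D θ := by
      have : -Complex.I * (((1 / 2) * (Complex.I * Complex.exp (-(Complex.I * θ)))) / D θ) =
        -(Complex.I * Complex.I) * (((1 / 2) * Complex.exp (-(Complex.I * θ))) / D θ) := by ring
      rw [this, hI]; ring
    rw [e1, e2]
  rw [e] at h4
  exact h4

theorem int_E0 : ∫ θ in (0:ℝ)..(2 * π), E0 θ / D θ = 17 / 4 * (2 * π) := by
  have hc : Continuous fun θ => E0 θ / D θ := E0_cont.div D_cont D_ne
  rw [intervalIntegral.integral_eq_sub_of_hasDerivAt (fun x _ => F_deriv x)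
    (hc.intervalIntegrable _ _)]
  have hp : Complex.exp (Complex.I * ((2 * π : ℝ) : ℂ)) = 1 := by
    have : Complex.I * ((2 * π : ℝ) : ℂ) = 2 * π * Complex.I := by push_cast; ring
    rw [this, Complex.exp_two_pi_mul_I]
  have hm : Complex.exp (-(Complex.I * ((2 * π : ℝ) : ℂ))) = 1 := by
    rw [Complex.exp_neg, hp, inv_one]
  have hD : D (2 * π) = D 0 := by
    unfold D
    rw [hm]; simp
  unfold F
  rw [hD, hp]
  simp

theorem ell_E0 : ell E0 = 17 / 4 := by
  unfold ell
  have : (∫ θ in (0:ℝ)..(2 * π), E0 θ / (1 - (1 / 2) * Complex.exp (-(Complex.I * θ)))) =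
      17 / 4 * (2 * π) := int_E0
  rw [this]
  have hpi : (π : ℂ) ≠ 0 := by exact_mod_cast Real.pi_ne_zero
  push_cast
  field_simp

/-- the cutoff functions -/
noncomputable def psi (a b : ℝ) (θ : ℝ) : ℝ := Real.smoothTransition ((Real.cos θ + 1 - a) / (b - a))

theorem psi_smooth (a b : ℝ) : ContDiff ℝ ∞ (psi a b) := by
  unfold psi
  have h : ContDiff ℝ ∞ (fun θ : ℝ => (Real.cos θ + 1 - a) / (b - a)) := by
    apply ContDiff.div_const
    exact (Real.contDiff_cos.add contDiff_const).sub contDiff_const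
  exact Real.smoothTransition.contDiff.comp h

theorem psi_per (a b x : ℝ) : psi a b (x + 2 * π) = psi a b x := by
  unfold psi; rw [Real.cos_add_two_pi]

theorem psi_nonneg (a b x : ℝ) : 0 ≤ psi a b x := Real.smoothTransition.nonneg _
theorem psi_le_one (a b x : ℝ) : psi a b x ≤ 1 := Real.smoothTransition.le_one _

theorem psi_one {a b x : ℝ} (hab : a < b) (h : b ≤ Real.cos x + 1) : psi a b x = 1 := by
  unfold psi
  apply Real.smoothTransition.one_of_one_le
  rw [le_div_iff₀ (by linarith)]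
  linarith

theorem psi_zero {a b x : ℝ} (hab : a < b) (h : Real.cos x + 1 ≤ a) : psi a b x = 0 := by
  unfold psi
  apply Real.smoothTransition.zero_of_nonpos
  apply div_nonpos_of_nonpos_of_nonneg <;> linarith

theorem cos_bound {δ x : ℝ} (hδ : 0 < δ) (_hδ2 : δ < π) (hx0 : 0 ≤ x) (hx1 : x ≤ 2 * π)
    (hx : x ≤ π - δ ∨ π + δ ≤ x) : 1 - Real.cos δ ≤ Real.cos x + 1 := by
  have h1 : Real.cos (π - δ) = -Real.cos δ := Real.cos_pi_sub δ
  rcases hx with hx | hx
  · have := Real.cos_le_cos_of_nonneg_of_le_pi hx0 (by linarith) hx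
    linarith
  · have h2 : Real.cos (2 * π - x) = Real.cos x := Real.cos_two_pi_sub x
    have := Real.cos_le_cos_of_nonneg_of_le_pi (x := 2 * π - x) (y := π - δ) (by linarith)
      (by linarith) (by linarith)
    linarith

theorem ell_smul (c : ℂ) (E : ℝ → ℂ) : ell (fun θ => c * E θ) = c * ell E := by
  unfold ell
  have : (fun θ : ℝ => c * E θ / (1 - (1 / 2) * Complex.exp (-(Complex.I * θ)))) =
      fun θ : ℝ => c * (E θ / (1 - (1 / 2) * Complex.exp (-(Complex.I * θ)))) := by
    funext θ; ring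
  rw [this, intervalIntegral.integral_const_mul]
  ring

theorem seed_exists : ∃ (X : ℝ → ℝ) (E : ℝ → ℂ) (κ g : ℝ), ContDiff ℝ ∞ X ∧
    (∀ x, X (x + 2 * π) = X x) ∧ (∀ x, 0 ≤ X x ∧ X x ≤ 1) ∧ 0 < g ∧
    (∀ x, |x - π| < g → X x = 0) ∧ ContDiff ℝ ∞ E ∧ (∀ x, E (x + 2 * π) = E x) ∧
    (∀ x, E x ≠ 0 → X x = 1) ∧ 0 < κ ∧ κ < 1 ∧ (∀ x, ‖E x‖ ≤ κ) ∧ ell E = 1 := by
  have hpi3 : (3 : ℝ) < π := Real.pi_gt_three
  set δ : ℝ := 1 / 100 with hδ
  have hδpos : 0 < δ := by norm_num [hδ]
  have hδpi : δ < π := by rw [hδ]; linarith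
  set d2 : ℝ := 1 - Real.cos δ with hd2
  have hd2pos : 0 < d2 := by
    have : Real.cos δ < 1 := by
      have := Real.cos_lt_cos_of_nonneg_of_le_pi (x := 0) (y := δ) le_rfl hδpi.le hδpos
      rwa [Real.cos_zero] at this
    rw [hd2]; linarith
  set d1 : ℝ := d2 / 2 with hd1
  set d0 : ℝ := d2 / 4 with hd0
  have h01 : d0 < d1 := by rw [hd0, hd1]; linarith
  have h12 : d1 < d2 := by rw [hd1]; linarith
  have hd0pos : 0 < d0 := by rw [hd0]; linarith
  let X := psi d0 d1
  let X0 := psi d1 d2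
  let G : ℝ → ℂ := fun θ => (X0 θ : ℂ) * E0 θ
  have hX0c : Continuous X0 := (psi_smooth d1 d2).continuous
  have hGc : Continuous G := by
    apply Continuous.mul _ E0_cont
    exact Complex.continuous_ofReal.comp hX0c
  -- the functional of the cut off seed
  let L := ell G
  have hL : (4.2 : ℝ) ≤ ‖L‖ := by
    have hdiff : (17 / 4 : ℂ) - L = (1 / (2 * π : ℝ) : ℂ) *
        ∫ θ in (0:ℝ)..(2 * π), (E0 θ / D θ - G θ / D θ) := by
      rw [← ell_E0]
      change ell E0 - ell G = _
      unfold ell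
      have c1 : Continuous fun θ => E0 θ / D θ := E0_cont.div D_cont D_ne
      have c2 : Continuous fun θ => G θ / D θ := hGc.div D_cont D_ne
      rw [intervalIntegral.integral_sub (c1.intervalIntegrable _ _) (c2.intervalIntegrable _ _)]
      unfold D
      ring
    let H : ℝ → ℂ := fun θ => E0 θ / D θ - G θ / D θ
    have hHc : Continuous H := (E0_cont.div D_cont D_ne).sub (hGc.div D_cont D_ne)
    have hHzero : ∀ θ, 0 ≤ θ → θ ≤ 2 * π → (θ ≤ π - δ ∨ π + δ ≤ θ) → H θ = 0 := by
      intro θ h0 h1 h2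
      have : X0 θ = 1 := psi_one h12 (cos_bound hδpos hδpi h0 h1 h2)
      simp only [H, G, this]
      simp
    have hHb : ∀ θ, ‖H θ‖ ≤ 8.4 := by
      intro θ
      have e : H θ = ((1 - X0 θ : ℝ) : ℂ) * E0 θ / D θ := by
        simp only [H, G]; push_cast; ring
      rw [e, norm_div, norm_mul]
      have h1 : ‖((1 - X0 θ : ℝ) : ℂ)‖ ≤ 1 := by
        rw [Complex.norm_real, Real.norm_eq_abs, abs_le]
        have := psi_nonneg d1 d2 θ
        have := psi_le_one d1 d2 θ
        constructor <;> simp only [X0] <;> linarith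
      have h2 := E0_norm θ
      have h3 := D_norm θ
      have h3' : 0 < ‖D θ‖ := by linarith
      rw [div_le_iff₀ h3']
      have h4 : ‖((1 - X0 θ : ℝ) : ℂ)‖ * ‖E0 θ‖ ≤ 1 * 4.13 :=
        mul_le_mul h1 h2 (norm_nonneg _) (by norm_num)
      linarith
    have hsplit : (∫ θ in (0:ℝ)..(2 * π), H θ) = ∫ θ in (π - δ)..(π + δ), H θ := by
      have i1 := hHc.intervalIntegrable (μ := volume) 0 (π - δ)
      have i2 := hHc.intervalIntegrable (μ := volume) (π - δ) (π + δ)
      have i3 := hHc.intervalIntegrable (μ := volume) (π + δ) (2 * π)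
      rw [← intervalIntegral.integral_add_adjacent_intervals (i1.trans i2) i3,
        ← intervalIntegral.integral_add_adjacent_intervals i1 i2]
      have z1 : (∫ θ in (0:ℝ)..(π - δ), H θ) = 0 := by
        rw [intervalIntegral.integral_congr (g := fun _ => (0:ℂ))]
        · simp
        · intro θ hθ
          rw [uIcc_of_le (by linarith)] at hθ
          exact hHzero θ hθ.1 (by linarith [hθ.2]) (Or.inl hθ.2)
      have z3 : (∫ θ in (π + δ)..(2 * π), H θ) = 0 := by
        rw [intervalIntegral.integral_congr (g := fun _ => (0:ℂ))]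
        · simp
        · intro θ hθ
          rw [uIcc_of_le (by linarith)] at hθ
          exact hHzero θ (by linarith [hθ.1]) hθ.2 (Or.inr hθ.1)
      rw [z1, z3]; simp
    have hbound : ‖∫ θ in (π - δ)..(π + δ), H θ‖ ≤ 8.4 * |π + δ - (π - δ)| :=
      intervalIntegral.norm_integral_le_of_norm_le_const (fun x _ => hHb x)
    have habs : |π + δ - (π - δ)| = 1 / 50 := by
      rw [hδ, abs_of_pos] <;> norm_num
    rw [habs] at hbound
    have hn : ‖(17 / 4 : ℂ) - L‖ ≤ 0.05 := by
      rw [hdiff]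
      change ‖(1 / (2 * π : ℝ) : ℂ) * ∫ θ in (0:ℝ)..(2 * π), H θ‖ ≤ 0.05
      rw [hsplit, norm_mul]
      have h1 : ‖(1 / (2 * π : ℝ) : ℂ)‖ ≤ 1 / 6 := by
        have e : (1 / (2 * π : ℝ) : ℂ) = ((1 / (2 * π) : ℝ) : ℂ) := by push_cast; ring
        rw [e, Complex.norm_real, Real.norm_eq_abs, abs_of_pos (by positivity)]
        apply one_div_le_one_div_of_le <;> linarith
      calc _ ≤ (1 / 6) * (8.4 * (1 / 50)) :=
            mul_le_mul h1 hbound (norm_nonneg _) (by norm_num)
        _ ≤ 0.05 := by norm_num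
    have h17 : ‖(17 / 4 : ℂ)‖ = 17 / 4 := by
      have : (17 / 4 : ℂ) = ((17 / 4 : ℝ) : ℂ) := by push_cast; ring
      rw [this, Complex.norm_real]; norm_num
    have := norm_sub_norm_le (17 / 4 : ℂ) L
    rw [h17] at this
    norm_num at this hn ⊢
    linarith
  have hLpos : 0 < ‖L‖ := by norm_num at hL; linarith
  have hLne : L ≠ 0 := norm_pos_iff.mp hLpos
  obtain ⟨g, hg, hgX⟩ : ∃ g > 0, ∀ x, |x - π| < g → Real.cos x + 1 < d0 := by
    have hc : ContinuousAt (fun x => Real.cos x + 1) π := by fun_prop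
    have h0 : Real.cos π + 1 < d0 := by rw [Real.cos_pi]; linarith
    have := hc.eventually_lt_const h0
    rw [Metric.eventually_nhds_iff] at this
    obtain ⟨g, hg, h⟩ := this
    exact ⟨g, hg, fun x hx => h (by rwa [Real.dist_eq])⟩
  refine ⟨X, fun θ => L⁻¹ * G θ, 4.13 / 4.2, g, psi_smooth _ _, psi_per _ _,
    fun x => ⟨psi_nonneg _ _ x, psi_le_one _ _ x⟩, hg,
    fun x hx => psi_zero h01 (hgX x hx).le, ?_, ?_, ?_, by norm_num, by norm_num, ?_, ?_⟩
  · apply contDiff_const.mul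
    apply ContDiff.mul
    · exact Complex.ofRealCLM.contDiff.comp (psi_smooth _ _)
    · unfold E0
      apply contDiff_const.add
      apply contDiff_const.mul
      exact Complex.ofRealCLM.contDiff.comp Real.contDiff_sin
  · intro x
    simp only [G, X0, E0]
    rw [psi_per, Real.sin_add_two_pi]
  · intro x hx
    have h1 : X0 x ≠ 0 := by
      intro h
      apply hx
      simp only [G, h]
      simp
    have h2 : ¬ (Real.cos x + 1 ≤ d1) := fun h => h1 (psi_zero h12 h)
    exact psi_one h01 (not_le.mp h2).le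
  · intro x
    simp only [G]
    rw [norm_mul, norm_mul, norm_inv, Complex.norm_real, Real.norm_eq_abs,
      abs_of_nonneg (psi_nonneg _ _ _)]
    have h1 : psi d1 d2 x * ‖E0 x‖ ≤ 1 * 4.13 :=
      mul_le_mul (psi_le_one _ _ _) (E0_norm x) (norm_nonneg _) (by norm_num)
    have h2 : ‖L‖⁻¹ ≤ 1 / 4.2 := by
      rw [← one_div]
      exact one_div_le_one_div_of_le (by norm_num) hL
    calc ‖L‖⁻¹ * (psi d1 d2 x * ‖E0 x‖) ≤ (1 / 4.2) * (1 * 4.13) :=
          mul_le_mul h2 h1 (mul_nonneg (psi_nonneg _ _ _) (norm_nonneg _)) (by norm_num)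
      _ = 4.13 / 4.2 := by norm_num
  · rw [ell_smul]
    exact inv_mul_cancel₀ hLne

end Pool.Agent.TH195.J190


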