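import Pool.Agent.TH195.J245
import Pool.Agent.TH195.J190

set_option autoImplicit false

open MeasureTheory Set Filter Topology
open scoped Real ContDiff

namespace Pool.Agent.TH195.J246

open Pool.Agent.TH195.J245
open Pool.Agent.TH195.J189 (ex ex_cont ell uu)
open Pool.Agent.TH195.J190 (E0 E0_cont E0_norm psi psi_smooth psi_per psi_nonneg psi_le_one psi_one
  psi_zero cos_bound D D_ne D_norm D_cont)

theorem E0_eq (θ : ℝ) : E0 θ = 4 * ex 0 θ + (1 / 2) * ex 1 θ - (1 / 2) * ex (-1) θ := by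
  unfold E0 ex
  have hs : (Real.sin θ : ℂ) = (Complex.exp (-(Complex.I * θ)) - Complex.exp (Complex.I * θ)) *
      Complex.I / 2 := by
    rw [Complex.ofReal_sin, Complex.sin]
    congr 3
    · congr 1; ring
    · congr 1; ring
  have hI : Complex.I * Complex.I = -1 := Complex.I_mul_I
  rw [hs, zpow_zero, zpow_one, zpow_neg_one, ← Complex.exp_neg]
  linear_combination (1 / 2) * (Complex.exp (-(Complex.I * θ)) - Complex.exp (Complex.I * θ)) * hI

theorem ell1_E0 : ell1 E0 = 1 / 2 := by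
  have h : E0 = fun θ => (4 * ex 0 θ + (1 / 2) * ex 1 θ) - (1 / 2) * ex (-1) θ := by
    funext θ; exact E0_eq θ
  have c0 : Continuous fun θ => 4 * ex 0 θ := continuous_const.mul (ex_cont 0)
  have c1 : Continuous fun θ => (1 / 2 : ℂ) * ex 1 θ := continuous_const.mul (ex_cont 1)
  have c2 : Continuous fun θ => (1 / 2 : ℂ) * ex (-1) θ := continuous_const.mul (ex_cont (-1))
  have c1' : Continuous fun θ => -((1 / 2 : ℂ) * ex 1 θ) := c1.neg
  have e : (fun θ => (4 * ex 0 θ + (1 / 2) * ex 1 θ) - (1 / 2) * ex (-1) θ) =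
      fun θ => (4 * ex 0 θ - (-((1 / 2 : ℂ) * ex 1 θ))) - (1 / 2) * ex (-1) θ := by
    funext θ; ring
  have c01 : Continuous fun θ => 4 * ex 0 θ - (-((1 / 2 : ℂ) * ex 1 θ)) := c0.sub c1'
  rw [h, e, ell1_sub c01 c2, ell1_sub c0 c1']
  have e2 : (fun θ => -((1 / 2 : ℂ) * ex 1 θ)) = fun θ => (-(1 / 2) : ℂ) * ex 1 θ := by
    funext θ; ring
  rw [e2, ell1_smul, ell1_smul, ell1_smul]
  have h0 := ell1_nonneg 0
  have h1 := ell1_nonneg 1
  have h2 := ell1_neg 1
  simp only [Nat.cast_zero, Nat.cast_one] at h0 h1 h2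
  rw [h0, h1, h2]
  norm_num

theorem small_int {δ : ℝ} (hδ : δ = 1 / 100) {H : ℝ → ℂ} {c : ℝ} (hHc : Continuous H)
    (hHzero : ∀ θ, 0 ≤ θ → θ ≤ 2 * π → (θ ≤ π - δ ∨ π + δ ≤ θ) → H θ = 0)
    (hHb : ∀ θ, ‖H θ‖ ≤ c) :
    ‖(1 / (2 * π : ℝ) : ℂ) * ∫ θ in (0:ℝ)..(2 * π), H θ‖ ≤ (1 / 6) * (c * (1 / 50)) := by
  have hpi3 : (3 : ℝ) < π := Real.pi_gt_three
  have hδpos : 0 < δ := by norm_num [hδ]
  have hδpi : δ < π := by rw [hδ]; linarith
  have hsplit : (∫ θ in (0:ℝ)..(2 * π), H θ) = ∫ θ in (π - δ)..(π + δ), H θ := by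
    have i1 := hHc.intervalIntegrable (μ := volume) 0 (π - δ)
    have i2 := hHc.intervalIntegrable (μ := volume) (π - δ) (π + δ)
    have i3 := hHc.intervalIntegrable (μ := volume) (π + δ) (2 * π)
    rw [← intervalIntegral.integral_add_adjacent_intervals (i1.trans i2) i3,
      ← intervalIntegral.integral_add_adjacent_intervals i1 i2]
    have z1 : (∫ θ in (0:ℝ)..(π - δ), H θ) = 0 := by
      rw [intervalIntegral.integral_congr (g := fun _ => (0:ℂ))]
      · simp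
      · intro θ hθ
        rw [uIcc_of_le (by linarith)] at hθ
        exact hHzero θ hθ.1 (by linarith [hθ.2]) (Or.inl hθ.2)
    have z3 : (∫ θ in (π + δ)..(2 * π), H θ) = 0 := by
      rw [intervalIntegral.integral_congr (g := fun _ => (0:ℂ))]
      · simp
      · intro θ hθ
        rw [uIcc_of_le (by linarith)] at hθ
        exact hHzero θ (by linarith [hθ.1]) hθ.2 (Or.inr hθ.1)
    rw [z1, z3]; simp
  have hbound : ‖∫ θ in (π - δ)..(π + δ), H θ‖ ≤ c * |π + δ - (π - δ)| :=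
    intervalIntegral.norm_integral_le_of_norm_le_const (fun x _ => hHb x)
  have habs : |π + δ - (π - δ)| = 1 / 50 := by
    rw [hδ, abs_of_pos] <;> norm_num
  rw [habs] at hbound
  rw [hsplit, norm_mul]
  have h1 : ‖(1 / (2 * π : ℝ) : ℂ)‖ ≤ 1 / 6 := by
    have e : (1 / (2 * π : ℝ) : ℂ) = ((1 / (2 * π) : ℝ) : ℂ) := by push_cast; ring
    rw [e, Complex.norm_real, Real.norm_eq_abs, abs_of_pos (by positivity)]
    apply one_div_le_one_div_of_le <;> linarith
  exact mul_le_mul h1 hbound (norm_nonneg _) (by norm_num)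

theorem seed_exists : ∃ (X : ℝ → ℝ) (E : ℝ → ℂ) (κ g : ℝ), ContDiff ℝ ∞ X ∧
    (∀ x, X (x + 2 * π) = X x) ∧ (∀ x, 0 ≤ X x ∧ X x ≤ 1) ∧ 0 < g ∧
    (∀ x, |x - π| < g → X x = 0) ∧ ContDiff ℝ ∞ E ∧ (∀ x, E (x + 2 * π) = E x) ∧
    (∀ x, E x ≠ 0 → X x = 1) ∧ 0 < κ ∧ κ < 1 ∧ (∀ x, ‖E x‖ ≤ κ) ∧ ell E = 1 ∧ ell1 E ≠ 0 := by
  have hpi3 : (3 : ℝ) < π := Real.pi_gt_three
  set δ : ℝ := 1 / 100 with hδ
  have hδpos : 0 < δ := by norm_num [hδ]
  have hδpi : δ < π := by rw [hδ]; linarith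
  set d2 : ℝ := 1 - Real.cos δ with hd2
  have hd2pos : 0 < d2 := by
    have : Real.cos δ < 1 := by
      have := Real.cos_lt_cos_of_nonneg_of_le_pi (x := 0) (y := δ) le_rfl hδpi.le hδpos
      rwa [Real.cos_zero] at this
    rw [hd2]; linarith
  set d1 : ℝ := d2 / 2 with hd1
  set d0 : ℝ := d2 / 4 with hd0
  have h01 : d0 < d1 := by rw [hd0, hd1]; linarith
  have h12 : d1 < d2 := by rw [hd1]; linarith
  have hd0pos : 0 < d0 := by rw [hd0]; linarith
  let X := psi d0 d1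
  let X0 := psi d1 d2
  let G : ℝ → ℂ := fun θ => (X0 θ : ℂ) * E0 θ
  have hX0c : Continuous X0 := (psi_smooth d1 d2).continuous
  have hGc : Continuous G := by
    apply Continuous.mul _ E0_cont
    exact Complex.continuous_ofReal.comp hX0c
  have hXle : ∀ θ, ‖((1 - X0 θ : ℝ) : ℂ)‖ ≤ 1 := by
    intro θ
    rw [Complex.norm_real, Real.norm_eq_abs, abs_le]
    have := psi_nonneg d1 d2 θ
    have := psi_le_one d1 d2 θ
    constructor <;> simp only [X0] <;> linarith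
  have hdiffle : ∀ θ, ‖E0 θ - G θ‖ ≤ 4.13 := by
    intro θ
    have e : E0 θ - G θ = ((1 - X0 θ : ℝ) : ℂ) * E0 θ := by
      simp only [G]; push_cast; ring
    rw [e, norm_mul]
    calc ‖((1 - X0 θ : ℝ) : ℂ)‖ * ‖E0 θ‖ ≤ 1 * 4.13 :=
          mul_le_mul (hXle θ) (E0_norm θ) (norm_nonneg _) (by norm_num)
      _ = 4.13 := by norm_num
  have hdiffz : ∀ θ, 0 ≤ θ → θ ≤ 2 * π → (θ ≤ π - δ ∨ π + δ ≤ θ) → E0 θ - G θ = 0 := by
    intro θ h0 h1 h2
    have : X0 θ = 1 := psi_one h12 (cos_bound hδpos hδpi h0 h1 h2)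
    simp only [G, this]
    simp
  -- the functional of the cut off seed
  let L := ell G
  have hL : (4.2 : ℝ) ≤ ‖L‖ := by
    have hdiff : (17 / 4 : ℂ) - L = (1 / (2 * π : ℝ) : ℂ) *
        ∫ θ in (0:ℝ)..(2 * π), (E0 θ - G θ) / D θ := by
      have h17 : ell E0 = 17 / 4 := Pool.Agent.TH195.J190.ell_E0
      rw [← h17]
      change ell E0 - ell G = _
      rw [← Pool.Agent.TH195.J189.ell_sub E0_cont hGc]
      rfl
    have hHc : Continuous fun θ => (E0 θ - G θ) / D θ := (E0_cont.sub hGc).div D_cont D_ne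
    have hn : ‖(17 / 4 : ℂ) - L‖ ≤ (1 / 6) * (8.4 * (1 / 50)) := by
      rw [hdiff]
      refine small_int hδ hHc ?_ ?_
      · intro θ h0 h1 h2
        rw [hdiffz θ h0 h1 h2, zero_div]
      · intro θ
        have h3 := D_norm θ
        rw [norm_div, div_le_iff₀ (by linarith)]
        have := hdiffle θ
        linarith
    have h17 : ‖(17 / 4 : ℂ)‖ = 17 / 4 := by
      have : (17 / 4 : ℂ) = ((17 / 4 : ℝ) : ℂ) := by push_cast; ring
      rw [this, Complex.norm_real]; norm_num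
    have := norm_sub_norm_le (17 / 4 : ℂ) L
    rw [h17] at this
    norm_num at this hn ⊢
    linarith
  have hLpos : 0 < ‖L‖ := by norm_num at hL; linarith
  have hLne : L ≠ 0 := norm_pos_iff.mp hLpos
  have hL1 : ell1 G ≠ 0 := by
    have hdiff : (1 / 2 : ℂ) - ell1 G = (1 / (2 * π : ℝ) : ℂ) *
        ∫ θ in (0:ℝ)..(2 * π), (E0 θ - G θ) * Complex.exp (-(Complex.I * θ)) / D θ ^ 2 := by
      rw [← ell1_E0, ← ell1_sub E0_cont hGc]
      rfl
    have hHc : Continuous fun θ : ℝ => (E0 θ - G θ) * Complex.exp (-(Complex.I * θ)) / D θ ^ 2 := by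
      apply Continuous.div _ (D_cont.pow 2) (fun θ => pow_ne_zero 2 (D_ne θ))
      apply (E0_cont.sub hGc).mul
      fun_prop
    have hn : ‖(1 / 2 : ℂ) - ell1 G‖ ≤ (1 / 6) * (16.8 * (1 / 50)) := by
      rw [hdiff]
      refine small_int hδ hHc ?_ ?_
      · intro θ h0 h1 h2
        rw [hdiffz θ h0 h1 h2, zero_mul, zero_div]
      · intro θ
        have h3 := D_norm θ
        have h4 : (1 / 4 : ℝ) ≤ ‖D θ‖ ^ 2 := by nlinarith
        rw [norm_div, norm_mul, Pool.Agent.TH195.J190.norm_exp_neg, mul_one, norm_pow,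
          div_le_iff₀ (by linarith)]
        have := hdiffle θ
        linarith
    intro h0
    rw [h0, sub_zero] at hn
    have h12 : ‖(1 / 2 : ℂ)‖ = 1 / 2 := by
      have : (1 / 2 : ℂ) = ((1 / 2 : ℝ) : ℂ) := by push_cast; ring
      rw [this, Complex.norm_real]; norm_num
    rw [h12] at hn
    norm_num at hn
  obtain ⟨g, hg, hgX⟩ : ∃ g > 0, ∀ x, |x - π| < g → Real.cos x + 1 < d0 := by
    have hc : ContinuousAt (fun x => Real.cos x + 1) π := by fun_prop
    have h0 : Real.cos π + 1 < d0 := by rw [Real.cos_pi]; linarith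
    have := hc.eventually_lt_const h0
    rw [Metric.eventually_nhds_iff] at this
    obtain ⟨g, hg, h⟩ := this
    exact ⟨g, hg, fun x hx => h (by rwa [Real.dist_eq])⟩
  refine ⟨X, fun θ => L⁻¹ * G θ, 4.13 / 4.2, g, psi_smooth _ _, psi_per _ _,
    fun x => ⟨psi_nonneg _ _ x, psi_le_one _ _ x⟩, hg,
    fun x hx => psi_zero h01 (hgX x hx).le, ?_, ?_, ?_, by norm_num, by norm_num, ?_, ?_, ?_⟩
  · apply contDiff_const.mul
    apply ContDiff.mul
    · exact Complex.ofRealCLM.contDiff.comp (psi_smooth _ _)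
    · unfold E0
      apply contDiff_const.add
      apply contDiff_const.mul
      exact Complex.ofRealCLM.contDiff.comp Real.contDiff_sin
  · intro x
    simp only [G, X0, E0]
    rw [psi_per, Real.sin_add_two_pi]
  · intro x hx
    have h1 : X0 x ≠ 0 := by
      intro h
      apply hx
      simp only [G, h]
      simp
    have h2 : ¬ (Real.cos x + 1 ≤ d1) := fun h => h1 (psi_zero h12 h)
    exact psi_one h01 (not_le.mp h2).le
  · intro x
    simp only [G]
    rw [norm_mul, norm_mul, norm_inv, Complex.norm_real, Real.norm_eq_abs,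
      abs_of_nonneg (psi_nonneg _ _ _)]
    have h1 : psi d1 d2 x * ‖E0 x‖ ≤ 1 * 4.13 :=
      mul_le_mul (psi_le_one _ _ _) (E0_norm x) (norm_nonneg _) (by norm_num)
    have h2 : ‖L‖⁻¹ ≤ 1 / 4.2 := by
      rw [← one_div]
      exact one_div_le_one_div_of_le (by norm_num) hL
    calc ‖L‖⁻¹ * (psi d1 d2 x * ‖E0 x‖) ≤ (1 / 4.2) * (1 * 4.13) :=
          mul_le_mul h2 h1 (mul_nonneg (psi_nonneg _ _ _) (norm_nonneg _)) (by norm_num)
      _ = 4.13 / 4.2 := by norm_num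
  · rw [Pool.Agent.TH195.J189.ell_smul]
    exact inv_mul_cancel₀ hLne
  · rw [ell1_smul]
    exact mul_ne_zero (inv_ne_zero hLne) hL1

end Pool.Agent.TH195.J246
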