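import Pool.Agent.TH343.J117
import Pool.Agent.Helper509.SphDefs

/-! Job 121, part a: integrals over a compact space depending on a parameter. -/

set_option autoImplicit false
set_option linter.unusedSectionVars false

open scoped Manifold ContDiff Topology ComplexConjugate MatrixGroups UpperHalfPlane Matrix
open MeasureTheory Set Filter

namespace Pool.Agent.TH195.J121

section param

variable {X : Type} [TopologicalSpace X] [CompactSpace X] [SecondCountableTopology X]
  [MeasurableSpace X] [BorelSpace X] {μ : Measure X} [IsFiniteMeasure μ]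
  {P E : Type} [NormedAddCommGroup P] [NormedSpace ℝ P]
  [NormedAddCommGroup E] [NormedSpace ℝ E] [FiniteDimensional ℝ E]
  {e : X → P} {G : P × E → ℂ} {Ω : Set E}

theorem slice_cont (he : Continuous e) {F : Type} [NormedAddCommGroup F] {G : P × E → F}
    (hG : ContinuousOn G (univ ×ˢ Ω)) {q : E} (hq : q ∈ Ω) : Continuous fun x => G (e x, q) := by
  have h : ContinuousOn (fun x => G (e x, q)) univ :=
    hG.comp (he.prodMk continuous_const).continuousOn (fun x _ => ⟨mem_univ _, hq⟩)
  exact continuousOn_univ.mp h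

theorem slice_fderiv (hΩ : IsOpen Ω) (hG : ContDiffOn ℝ 1 G (univ ×ˢ Ω)) (w : P) {q : E}
    (hq : q ∈ Ω) : HasFDerivAt (fun q => G (w, q))
      ((fderiv ℝ G (w, q)).comp (ContinuousLinearMap.inr ℝ P E)) q := by
  have h1 : DifferentiableAt ℝ G (w, q) :=
    (hG.differentiableOn (by norm_num)).differentiableAt
      ((isOpen_univ.prod hΩ).mem_nhds ⟨mem_univ _, hq⟩)
  have h2 : HasFDerivAt (fun q : E => (w, q)) (ContinuousLinearMap.inr ℝ P E) q :=
    hasFDerivAt_prodMk_right w q
  exact h1.hasFDerivAt.comp q h2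

theorem fderiv_contOn (hΩ : IsOpen Ω) (hG : ContDiffOn ℝ 1 G (univ ×ˢ Ω)) :
    ContinuousOn (fun w : P × E => (fderiv ℝ G w).comp (ContinuousLinearMap.inr ℝ P E))
      (univ ×ˢ Ω) := by
  have h1 : ContinuousOn (fderiv ℝ G) (univ ×ˢ Ω) :=
    hG.continuousOn_fderiv_of_isOpen (isOpen_univ.prod hΩ) (by norm_num)
  exact h1.clm_comp continuousOn_const

theorem local_bound (he : Continuous e) {F : Type} [NormedAddCommGroup F] {G : P × E → F}
    (hΩ : IsOpen Ω) (hG : ContinuousOn G (univ ×ˢ Ω)) {p : E} (hp : p ∈ Ω) :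
    ∃ s ∈ 𝓝 p, s ⊆ Ω ∧ ∃ M : ℝ, ∀ x, ∀ q ∈ s, ‖G (e x, q)‖ ≤ M := by
  obtain ⟨ε, hε, hs⟩ := Metric.isOpen_iff.mp hΩ p hp
  refine ⟨Metric.closedBall p (ε / 2), Metric.closedBall_mem_nhds p (by linarith), ?_, ?_⟩
  · exact (Metric.closedBall_subset_ball (by linarith)).trans hs
  · have hsub : Metric.closedBall p (ε / 2) ⊆ Ω :=
      (Metric.closedBall_subset_ball (by linarith)).trans hs
    have hc : IsCompact ((range e) ×ˢ Metric.closedBall p (ε / 2)) :=
      (isCompact_range he).prod (isCompact_closedBall p (ε / 2))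
    obtain ⟨M, hM⟩ := hc.exists_bound_of_continuousOn
      (hG.mono (prod_mono (subset_univ _) hsub))
    exact ⟨M, fun x q hq => hM _ ⟨mem_range_self x, hq⟩⟩

theorem param_hasFDerivAt (he : Continuous e) (hΩ : IsOpen Ω)
    (hG : ContDiffOn ℝ 1 G (univ ×ˢ Ω)) {p : E} (hp : p ∈ Ω) :
    HasFDerivAt (fun q => ∫ x, G (e x, q) ∂μ)
      (∫ x, (fderiv ℝ G (e x, p)).comp (ContinuousLinearMap.inr ℝ P E) ∂μ) p := by
  obtain ⟨s, hs, hsΩ, M, hM⟩ := local_bound he hΩ (fderiv_contOn hΩ hG) hp
  refine hasFDerivAt_integral_of_dominated_of_fderiv_le (𝕜 := ℝ) (bound := fun _ => M)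
    (F := fun q x => G (e x, q))
    (F' := fun q x => (fderiv ℝ G (e x, q)).comp (ContinuousLinearMap.inr ℝ P E)) hs ?_ ?_ ?_ ?_ ?_ ?_
  · filter_upwards [hΩ.mem_nhds hp] with q hq
    exact (slice_cont he hG.continuousOn hq).aestronglyMeasurable
  · exact (slice_cont he hG.continuousOn hp).integrable_of_hasCompactSupport
      (HasCompactSupport.of_compactSpace _)
  · exact (slice_cont he (fderiv_contOn hΩ hG) hp).aestronglyMeasurable
  · exact Eventually.of_forall fun x q hq => hM x q hq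
  · exact integrable_const _
  · exact Eventually.of_forall fun x q hq => slice_fderiv hΩ hG _ (hsΩ hq)

theorem param_contDiffOn (he : Continuous e) (hΩ : IsOpen Ω)
    (hG : ContDiffOn ℝ 1 G (univ ×ˢ Ω)) :
    ContDiffOn ℝ 1 (fun q => ∫ x, G (e x, q) ∂μ) Ω := by
  have h1 : ((0 : WithTop ℕ∞) + 1) = 1 := by norm_num
  rw [← h1, contDiffOn_succ_iff_fderiv_of_isOpen hΩ]
  refine ⟨fun p hp => (param_hasFDerivAt he hΩ hG hp).differentiableAt.differentiableWithinAt,
    by simp, ?_⟩
  rw [contDiffOn_zero]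
  have hc : ContinuousOn (fun q => ∫ x, (fderiv ℝ G (e x, q)).comp
      (ContinuousLinearMap.inr ℝ P E) ∂μ) Ω := by
    intro p hp
    obtain ⟨s, hs, hsΩ, M, hM⟩ := local_bound he hΩ (fderiv_contOn hΩ hG) hp
    refine ContinuousAt.continuousWithinAt ?_
    refine continuousAt_of_dominated (bound := fun _ => M)
      (F := fun q x => (fderiv ℝ G (e x, q)).comp (ContinuousLinearMap.inr ℝ P E)) ?_ ?_ ?_ ?_
    · filter_upwards [hΩ.mem_nhds hp] with q hq
      exact (slice_cont he (fderiv_contOn hΩ hG) hq).aestronglyMeasurable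
    · filter_upwards [hs] with q hq
      exact Eventually.of_forall fun x => hM x q hq
    · exact integrable_const _
    · refine Eventually.of_forall fun x => ?_
      have h2 : ContinuousAt (fun w : P × E => (fderiv ℝ G w).comp (ContinuousLinearMap.inr ℝ P E))
        (e x, p) := (fderiv_contOn hΩ hG).continuousAt
          ((isOpen_univ.prod hΩ).mem_nhds ⟨mem_univ _, hp⟩)
      exact ContinuousAt.comp (f := fun q : E => (e x, q)) h2 (by fun_prop)
  refine hc.congr fun p hp => ?_
  exact (param_hasFDerivAt he hΩ hG hp).fderiv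

end param

end Pool.Agent.TH195.J121
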