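import Pool.Agent.TH195.J121a

/-! Job 121, part b: the average over the unitary group. -/

set_option autoImplicit false

open scoped Manifold ContDiff Topology ComplexConjugate MatrixGroups UpperHalfPlane Matrix
open MeasureTheory Set Filter

namespace Pool.Agent.TH195.J121

open Pool.Agent.TH598.KG
open Pool.Agent.W549.CY (Cn dz dzbar HermitianMetric chernRicci chernScalar)
open Pool.Agent.W711.KC (jj nn)
open Pool.Agent.Helper509.SphDefs
open Pool.Agent.TH343.J117

abbrev U2 : Type := Matrix.unitaryGroup (Fin 2) ℂ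

instance : SecondCountableTopology (Matrix (Fin 2) (Fin 2) ℂ) :=
  inferInstanceAs (SecondCountableTopology (Fin 2 → Fin 2 → ℂ))

instance : SecondCountableTopology U2 :=
  TopologicalSpace.Subtype.secondCountableTopology
    (Matrix.unitaryGroup (Fin 2) ℂ : Set (Matrix (Fin 2) (Fin 2) ℂ))

instance : IsProbabilityMeasure (haarU 2) := ⟨by
  have := Measure.haarMeasure_self (K₀ := (⊤ : TopologicalSpace.PositiveCompacts U2))
  simpa [haarU] using this⟩

instance : (haarU 2).IsMulLeftInvariant := by unfold haarU; infer_instance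

theorem isOpen_UU : IsOpen UU := isOpen_lt continuous_const (by fun_prop)

theorem ru_mem {W : Matrix (Fin 2) (Fin 2) ℂ} {p : Cn 3} (hp : p ∈ UU) : ru W p ∈ UU := hp

/-- the inverse as an array. -/
def ie (W : U2) : Fin 2 → Fin 2 → ℂ := fun i j => ((W⁻¹ : U2) : Matrix (Fin 2) (Fin 2) ℂ) i j

theorem ie_of (W : U2) : Matrix.of (ie W) = ((W⁻¹ : U2) : Matrix (Fin 2) (Fin 2) ℂ) := rfl

theorem ie_cont : Continuous ie := by
  have h : Continuous fun W : U2 => ((W⁻¹ : U2) : Matrix (Fin 2) (Fin 2) ℂ) :=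
    continuous_subtype_val.comp continuous_inv
  exact h

/-- the integrand. -/
noncomputable def G (a : Cn 3 → M3) (j k : Fin 3) (w : (Fin 2 → Fin 2 → ℂ) × Cn 3) : ℂ :=
  rot (Matrix.of w.1) a w.2 j k

theorem G_contDiffOn {a : Cn 3 → M3} (ha : ∀ j k, ContDiffOn ℝ 1 (fun p => a p j k) UU)
    (j k : Fin 3) : ContDiffOn ℝ 1 (G a j k) (univ ×ˢ UU) := by
  have hru : ContDiffOn ℝ 1 (fun w : (Fin 2 → Fin 2 → ℂ) × Cn 3 => ru (Matrix.of w.1) w.2)
      (univ ×ˢ UU) := by
    refine ContDiff.contDiffOn ?_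
    rw [contDiff_pi]
    intro i
    have h1 : ∀ (r s : Fin 2), ContDiff ℝ 1 fun w : (Fin 2 → Fin 2 → ℂ) × Cn 3 => w.1 r s := by
      intro r s
      exact (contDiff_apply_apply ℝ ℂ r s).comp contDiff_fst
    have h2 : ∀ r : Fin 3, ContDiff ℝ 1 fun w : (Fin 2 → Fin 2 → ℂ) × Cn 3 => w.2 r := by
      intro r
      exact (contDiff_apply ℝ ℂ r).comp contDiff_snd
    fin_cases i
    · simpa [ru] using h2 0
    · simpa [ru] using ((h1 0 0).mul (h2 1)).add ((h1 0 1).mul (h2 2))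
    · simpa [ru] using ((h1 1 0).mul (h2 1)).add ((h1 1 1).mul (h2 2))
  have hR : ∀ r s : Fin 3, ContDiff ℝ 1 fun w : (Fin 2 → Fin 2 → ℂ) × Cn 3 =>
      RM (Matrix.of w.1) r s := by
    intro r s
    have h1 : ∀ (r s : Fin 2), ContDiff ℝ 1 fun w : (Fin 2 → Fin 2 → ℂ) × Cn 3 => w.1 r s := by
      intro r s
      exact (contDiff_apply_apply ℝ ℂ r s).comp contDiff_fst
    fin_cases r <;> fin_cases s <;> simp [RM] <;>
      first | exact contDiff_const | exact h1 _ _
  have hRc : ∀ r s : Fin 3, ContDiff ℝ 1 fun w : (Fin 2 → Fin 2 → ℂ) × Cn 3 =>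
      conj (RM (Matrix.of w.1) r s) := by
    intro r s
    exact Complex.conjCLE.contDiff.comp (hR r s)
  have ha' : ∀ r s : Fin 3, ContDiffOn ℝ 1 (fun w : (Fin 2 → Fin 2 → ℂ) × Cn 3 =>
      a (ru (Matrix.of w.1) w.2) r s) (univ ×ˢ UU) := by
    intro r s
    exact (ha r s).comp hru (fun w hw => ru_mem hw.2)
  unfold G rot
  simp only [Matrix.mul_apply, Matrix.transpose_apply, Matrix.map_apply, Finset.sum_mul]
  refine ContDiffOn.sum fun r _ => ContDiffOn.sum fun s _ => ?_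
  exact ((hR _ _).contDiffOn.mul (ha' _ _)).mul (hRc _ _).contDiffOn

/-- the average. -/
noncomputable def av (a : Cn 3 → M3) (p : Cn 3) : M3 :=
  Matrix.of fun j k => ∫ W : U2, rot ((W⁻¹ : U2) : Matrix (Fin 2) (Fin 2) ℂ) a p j k ∂haarU 2

theorem av_apply (a : Cn 3 → M3) (p : Cn 3) (j k : Fin 3) :
    av a p j k = ∫ W : U2, G a j k (ie W, p) ∂haarU 2 := rfl

section

variable {Γ : Subgroup SL(2, ℝ)} {a : Cn 3 → M3} {C : ℝ}

theorem G_cont (ha : ∀ j k, ContDiffOn ℝ 1 (fun p => a p j k) UU) (j k : Fin 3) {p : Cn 3}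
    (hp : p ∈ UU) : Continuous fun W : U2 => rot ((W⁻¹ : U2) : Matrix (Fin 2) (Fin 2) ℂ) a p j k :=
  slice_cont ie_cont (G_contDiffOn ha j k).continuousOn hp

theorem G_int (ha : ∀ j k, ContDiffOn ℝ 1 (fun p => a p j k) UU) (j k : Fin 3) {p : Cn 3}
    (hp : p ∈ UU) : Integrable (fun W : U2 =>
      rot ((W⁻¹ : U2) : Matrix (Fin 2) (Fin 2) ℂ) a p j k) (haarU 2) :=
  (G_cont ha j k hp).integrable_of_hasCompactSupport (HasCompactSupport.of_compactSpace _)

theorem hf_av (ha : ∀ j k, ContDiffOn ℝ 1 (fun p => a p j k) UU) {p : Cn 3} (hp : p ∈ UU)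
    (v : Cn 3) : hf (av a p) v =
      ∫ W : U2, hf (rot ((W⁻¹ : U2) : Matrix (Fin 2) (Fin 2) ℂ) a p) v ∂haarU 2 := by
  unfold hf
  rw [integral_finsetSum]
  · refine Finset.sum_congr rfl fun j _ => ?_
    rw [integral_finsetSum]
    · refine Finset.sum_congr rfl fun k _ => ?_
      rw [integral_mul_const, integral_mul_const]
      rfl
    · intro k _
      exact ((G_int ha j k hp).mul_const _).mul_const _
  · intro j _
    refine integrable_finsetSum _ fun k _ => ?_
    exact ((G_int ha j k hp).mul_const _).mul_const _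

theorem hf_cont (ha : ∀ j k, ContDiffOn ℝ 1 (fun p => a p j k) UU) {p : Cn 3} (hp : p ∈ UU)
    (v : Cn 3) : Continuous fun W : U2 =>
      hf (rot ((W⁻¹ : U2) : Matrix (Fin 2) (Fin 2) ℂ) a p) v := by
  unfold hf
  refine continuous_finsetSum _ fun j _ => continuous_finsetSum _ fun k _ => ?_
  exact ((G_cont ha j k hp).mul continuous_const).mul continuous_const

theorem hf_int (ha : ∀ j k, ContDiffOn ℝ 1 (fun p => a p j k) UU) {p : Cn 3} (hp : p ∈ UU)
    (v : Cn 3) : Integrable (fun W : U2 =>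
      hf (rot ((W⁻¹ : U2) : Matrix (Fin 2) (Fin 2) ℂ) a p) v) (haarU 2) :=
  (hf_cont ha hp v).integrable_of_hasCompactSupport (HasCompactSupport.of_compactSpace _)

theorem dz_av (ha : ∀ j k, ContDiffOn ℝ 1 (fun p => a p j k) UU) (i j k : Fin 3) {p : Cn 3}
    (hp : p ∈ UU) : dz i (fun q => av a q j k) p = ∫ W : U2,
      dz i (fun q => rot ((W⁻¹ : U2) : Matrix (Fin 2) (Fin 2) ℂ) a q j k) p ∂haarU 2 := by
  have h1 := param_hasFDerivAt (μ := haarU 2) ie_cont isOpen_UU (G_contDiffOn ha j k) hp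
  have h2 : ∀ W : U2, fderiv ℝ (fun q => rot ((W⁻¹ : U2) : Matrix (Fin 2) (Fin 2) ℂ) a q j k) p =
      (fderiv ℝ (G a j k) (ie W, p)).comp (ContinuousLinearMap.inr ℝ _ _) := fun W =>
    (slice_fderiv isOpen_UU (G_contDiffOn ha j k) (ie W) hp).fderiv
  have h3 : Integrable (fun W : U2 => (fderiv ℝ (G a j k) (ie W, p)).comp
      (ContinuousLinearMap.inr ℝ (Fin 2 → Fin 2 → ℂ) (Cn 3))) (haarU 2) :=
    (slice_cont ie_cont (fderiv_contOn isOpen_UU (G_contDiffOn ha j k)) hp).integrable_of_hasCompactSupport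
      (HasCompactSupport.of_compactSpace _)
  have h4 : ∀ v : Cn 3, fderiv ℝ (fun q => av a q j k) p v = ∫ W : U2,
      ((fderiv ℝ (G a j k) (ie W, p)).comp (ContinuousLinearMap.inr ℝ _ _)) v ∂haarU 2 := by
    intro v
    have : fderiv ℝ (fun q => av a q j k) p = ∫ W : U2, (fderiv ℝ (G a j k) (ie W, p)).comp
      (ContinuousLinearMap.inr ℝ (Fin 2 → Fin 2 → ℂ) (Cn 3)) ∂haarU 2 := h1.fderiv
    rw [this, ContinuousLinearMap.integral_apply h3]
  unfold dz
  simp only [h2]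
  rw [h4, h4, integral_const_mul, integral_sub, integral_const_mul]
  · exact h3.apply_continuousLinearMap _
  · exact (h3.apply_continuousLinearMap _).const_mul _

end

end Pool.Agent.TH195.J121
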