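import Pool.Agent.TH195.J121b

/-! Job 121, part c: the average is a closed, positive, rotation invariant form. -/

set_option autoImplicit false

open scoped Manifold ContDiff Topology ComplexConjugate MatrixGroups UpperHalfPlane Matrix
open MeasureTheory Set Filter

namespace Pool.Agent.TH195.J121

open Pool.Agent.TH598.KG
open Pool.Agent.W549.CY (Cn dz dzbar HermitianMetric chernRicci chernScalar)
open Pool.Agent.W711.KC (jj nn)
open Pool.Agent.Helper509.SphDefs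
open Pool.Agent.TH343.J117

theorem Fa_mem (g : SL(2, ℝ)) {p : Cn 3} (hp : p ∈ UU) : Fa g p ∈ UU := by
  have h0 : 0 < (p 0).im := hp
  have h := Pool.Agent.W711.KC.im_mob g h0
  change 0 < ((Fa g p) 0).im
  have e : (Fa g p) 0 = nn g (p 0) / jj g (p 0) := by simp [Fa]
  rw [e]
  have hj : 0 < Complex.normSq (jj g (p 0)) :=
    Complex.normSq_pos.mpr (Pool.Agent.W711.KC.jj_ne g h0)
  rw [h]
  positivity

theorem RM_mulVec (W : Matrix (Fin 2) (Fin 2) ℂ) (v : Cn 3) : (RM W).mulVec v = ru W v := by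
  funext i
  fin_cases i <;> simp [RM, ru, Matrix.mulVec, dotProduct, Fin.sum_univ_three]

theorem hf_rot (W : Matrix (Fin 2) (Fin 2) ℂ) (a : Cn 3 → M3) (p v : Cn 3) :
    hf (rot W a p) v = hf (a (ru W p)) (ru W v) := by
  unfold rot
  rw [hf_pull, RM_mulVec]

theorem ru_mul (V W : Matrix (Fin 2) (Fin 2) ℂ) (v : Cn 3) : ru V (ru W v) = ru (V * W) v := by
  funext i
  fin_cases i <;> simp [ru, Matrix.mul_apply, Fin.sum_univ_two] <;> ring

theorem ru_one (v : Cn 3) : ru 1 v = v := by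
  funext i
  fin_cases i <;> simp [ru]

theorem ru_ne {W : Matrix (Fin 2) (Fin 2) ℂ} (hW : W ∈ Matrix.unitaryGroup (Fin 2) ℂ) {v : Cn 3}
    (hv : v ≠ 0) : ru W v ≠ 0 := by
  intro h
  apply hv
  have h1 : star W * W = 1 := Matrix.mem_unitaryGroup_iff'.mp hW
  have h2 := ru_mul (star W) W v
  rw [h1, ru_one, h] at h2
  rw [← h2]
  funext i
  fin_cases i <;> simp [ru]

section

variable {Γ : Subgroup SL(2, ℝ)} {a : Cn 3 → M3} {C : ℝ}

theorem av_isForm (ha : IsForm Γ a C)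
    (hrot : ∀ W ∈ Matrix.unitaryGroup (Fin 2) ℂ, IsForm Γ (rot W a) C) :
    IsForm Γ (av a) C where
  c1 j k := param_contDiffOn (μ := haarU 2) ie_cont isOpen_UU (G_contDiffOn ha.c1 j k)
  herm p hp := by
    ext j k
    rw [Matrix.conjTranspose_apply]
    change conj (∫ W : U2, rot ((W⁻¹ : U2) : Matrix (Fin 2) (Fin 2) ℂ) a p k j ∂haarU 2) =
      ∫ W : U2, rot ((W⁻¹ : U2) : Matrix (Fin 2) (Fin 2) ℂ) a p j k ∂haarU 2
    rw [← integral_conj]
    refine integral_congr_ae (Eventually.of_forall fun W => ?_)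
    have := ((hrot _ (W⁻¹).2).herm p hp).apply j k
    exact this
  closed := by
    intro p hp i j k
    rw [dz_av ha.c1 i j k hp, dz_av ha.c1 j i k hp]
    refine integral_congr_ae (Eventually.of_forall fun W => ?_)
    exact (hrot _ (W⁻¹).2).closed p hp i j k
  equi := by
    intro g hg p hp v
    rw [hf_av ha.c1 hp, hf_av ha.c1 (Fa_mem g hp)]
    refine integral_congr_ae (Eventually.of_forall fun W => ?_)
    exact (hrot _ (W⁻¹).2).equi g hg p hp v
  bdd := by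
    intro p hp v
    rw [hf_av ha.c1 hp]
    have h1 : (∫ W : U2, hf (rot ((W⁻¹ : U2) : Matrix (Fin 2) (Fin 2) ℂ) a p) v ∂haarU 2).re =
        ∫ W : U2, (hf (rot ((W⁻¹ : U2) : Matrix (Fin 2) (Fin 2) ℂ) a p) v).re ∂haarU 2 := by
      have := Complex.reCLM.integral_comp_comm (hf_int ha.c1 hp v)
      exact this.symm
    rw [h1]
    have h2 : ∀ W : U2, |(hf (rot ((W⁻¹ : U2) : Matrix (Fin 2) (Fin 2) ℂ) a p) v).re| ≤
        C * (hf (g0 p) v).re := fun W => (hrot _ (W⁻¹).2).bdd p hp v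
    have h3 := norm_integral_le_of_norm_le_const (μ := haarU 2) (C := C * (hf (g0 p) v).re)
      (f := fun W : U2 => (hf (rot ((W⁻¹ : U2) : Matrix (Fin 2) (Fin 2) ℂ) a p) v).re)
      (Eventually.of_forall h2)
    simpa using h3

theorem av_pos (ha : IsForm Γ a C)
    (hpos : ∀ p ∈ UU, ∀ v : Cn 3, v ≠ 0 → 0 < (hf (a p) v).re) {p : Cn 3} (hp : p ∈ UU)
    {v : Cn 3} (hv : v ≠ 0) : 0 < (hf (av a p) v).re := by
  rw [hf_av ha.c1 hp]
  have h1 : (∫ W : U2, hf (rot ((W⁻¹ : U2) : Matrix (Fin 2) (Fin 2) ℂ) a p) v ∂haarU 2).re =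
      ∫ W : U2, (hf (rot ((W⁻¹ : U2) : Matrix (Fin 2) (Fin 2) ℂ) a p) v).re ∂haarU 2 := by
    have := Complex.reCLM.integral_comp_comm (hf_int ha.c1 hp v)
    exact this.symm
  rw [h1]
  have hc : Continuous fun W : U2 =>
      (hf (rot ((W⁻¹ : U2) : Matrix (Fin 2) (Fin 2) ℂ) a p) v).re :=
    Complex.continuous_re.comp (hf_cont ha.c1 hp v)
  obtain ⟨W0, -, hW0⟩ := isCompact_univ.exists_isMinOn (univ_nonempty (α := U2)) hc.continuousOn
  have hp0 : 0 < (hf (rot ((W0⁻¹ : U2) : Matrix (Fin 2) (Fin 2) ℂ) a p) v).re := by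
    rw [hf_rot]
    exact hpos _ (ru_mem hp) _ (ru_ne (W0⁻¹).2 hv)
  have hle : (hf (rot ((W0⁻¹ : U2) : Matrix (Fin 2) (Fin 2) ℂ) a p) v).re ≤
      ∫ W : U2, (hf (rot ((W⁻¹ : U2) : Matrix (Fin 2) (Fin 2) ℂ) a p) v).re ∂haarU 2 := by
    have h2 : (∫ _W : U2, (hf (rot ((W0⁻¹ : U2) : Matrix (Fin 2) (Fin 2) ℂ) a p) v).re ∂haarU 2) =
        (hf (rot ((W0⁻¹ : U2) : Matrix (Fin 2) (Fin 2) ℂ) a p) v).re := by simp
    rw [← h2]
    refine integral_mono (integrable_const _)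
      (hc.integrable_of_hasCompactSupport (HasCompactSupport.of_compactSpace _)) ?_
    intro W
    exact hW0 (mem_univ W)
  exact lt_of_lt_of_le hp0 hle

theorem av_rotInv (ha : IsForm Γ a C) : RotInv (av a) := by
  intro V hV p hp v
  rw [hf_av ha.c1 hp, hf_av ha.c1 (ru_mem hp)]
  let V' : U2 := ⟨V, hV⟩
  let H : U2 → ℂ := fun W => hf (rot ((W⁻¹ : U2) : Matrix (Fin 2) (Fin 2) ℂ) a p) v
  have h1 : ∀ W : U2, hf (rot ((W⁻¹ : U2) : Matrix (Fin 2) (Fin 2) ℂ) a (ru V p)) (ru V v) =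
      H (V'⁻¹ * W) := by
    intro W
    simp only [H]
    rw [hf_rot, hf_rot, ru_mul, ru_mul, mul_inv_rev, inv_inv]
    rfl
  simp only [h1]
  exact integral_mul_left_eq_self H V'⁻¹

end

end Pool.Agent.TH195.J121
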