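import Pool.Agent.TH195.J121c

/-! Job 121, part d: Fubini, `Phi (av a) b = Phi a b`. -/

set_option autoImplicit false

open scoped Manifold ContDiff Topology ComplexConjugate MatrixGroups UpperHalfPlane Matrix
open MeasureTheory Set Filter

namespace Pool.Agent.TH195.J121

open Pool.Agent.TH598.KG
open Pool.Agent.W549.CY (Cn dz dzbar HermitianMetric chernRicci chernScalar)
open Pool.Agent.W711.KC (jj nn)
open Pool.Agent.Helper509.SphDefs
open Pool.Agent.TH343.J117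

/-- the facts on `g0`, `rho0` used below. -/
structure Facts (φ : ℂ → ℝ) : Prop where
  g0h : ∀ p ∈ UU, (g0 p).IsHermitian
  g0p : ∀ p ∈ UU, ∀ v : Cn 3, v ≠ 0 → 0 < (hf (g0 p) v).re
  rh : ∀ p ∈ UU, (rho0 p).IsHermitian
  rb : Bdd rho0 4
  rc : ∀ j k, ContinuousOn (fun p => rho0 p j k) UU
  int : IntegrableOn (fun p => |φ (p 0)| * (g0 p).det.re) UU

theorem C_nonneg {φ : ℂ → ℝ} (H : Facts φ) {Γ : Subgroup SL(2, ℝ)} {a : Cn 3 → M3} {C : ℝ}
    (ha : IsForm Γ a C) : 0 ≤ C := by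
  have hp : (fun i => if i = 0 then Complex.I else 0 : Cn 3) ∈ UU := by
    change 0 < Complex.im _
    simp
  have hv : (fun i => if i = 0 then Complex.I else 0 : Cn 3) ≠ 0 := by
    intro h
    have := congrFun h 0
    simp at this
  have h1 := ha.bdd _ hp (fun i => if i = 0 then Complex.I else 0 : Cn 3)
  have h2 := H.g0p _ hp _ hv
  have h3 := (abs_nonneg _).trans h1
  by_contra hC
  have : C * (hf (g0 (fun i => if i = 0 then Complex.I else 0 : Cn 3))
    (fun i => if i = 0 then Complex.I else 0 : Cn 3)).re < 0 :=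
    mul_neg_of_neg_of_pos (not_le.mp hC) h2
  linarith

theorem DD_av {a : Cn 3 → M3} (ha : ∀ j k, ContDiffOn ℝ 1 (fun p => a p j k) UU) {p : Cn 3}
    (hp : p ∈ UU) (x y : M3) : DD x (av a p) y =
      ∫ W : U2, DD x (rot ((W⁻¹ : U2) : Matrix (Fin 2) (Fin 2) ℂ) a p) y ∂haarU 2 := by
  have e : ∀ z : M3, DD x z y = ∑ i, ∑ j, z i j * padj x y j i := fun z => by
    rw [(DD_symm x z y).2, DD_apply]
  simp only [e]
  rw [integral_finsetSum]
  · refine Finset.sum_congr rfl fun j _ => ?_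
    rw [integral_finsetSum]
    · refine Finset.sum_congr rfl fun k _ => ?_
      rw [integral_mul_const]
      rfl
    · intro k _
      exact (G_int ha j k hp).mul_const _
  · intro j _
    refine integrable_finsetSum _ fun k _ => ?_
    exact (G_int ha j k hp).mul_const _

theorem contOn_DD {X : Type} [TopologicalSpace X] {s : Set X} {x a b : X → M3}
    (hx : ∀ j k, ContinuousOn (fun p => x p j k) s) (ha : ∀ j k, ContinuousOn (fun p => a p j k) s)
    (hb : ∀ j k, ContinuousOn (fun p => b p j k) s) :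
    ContinuousOn (fun p => DD (x p) (a p) (b p)) s := by
  simp only [DD_apply, padj_apply]
  refine continuousOn_finsetSum _ fun i _ => continuousOn_finsetSum _ fun j _ => ?_
  refine (hx _ _).mul ?_
  exact ((((ha _ _).mul (hb _ _)).add ((hb _ _).mul (ha _ _))).sub ((ha _ _).mul (hb _ _))).sub
    ((hb _ _).mul (ha _ _))

theorem integrable_uncurry {Γ : Subgroup SL(2, ℝ)} {φ : ℂ → ℝ} (hφ : Continuous φ) (H : Facts φ)
    {a b : Cn 3 → M3} {C Cb : ℝ} (ha : IsForm Γ a C) (hb : IsForm Γ b Cb)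
    (hrot : ∀ W ∈ Matrix.unitaryGroup (Fin 2) ℂ, IsForm Γ (rot W a) C) :
    Integrable (Function.uncurry fun (p : Cn 3) (W : U2) => (φ (p 0) : ℂ) *
      DD (rho0 p) (rot ((W⁻¹ : U2) : Matrix (Fin 2) (Fin 2) ℂ) a p) (b p))
      (((volume : Measure (Cn 3)).restrict UU).prod (haarU 2)) := by
  have hmeas : MeasurableSet (UU ×ˢ (univ : Set U2)) :=
    isOpen_UU.measurableSet.prod MeasurableSet.univ
  have hrestr : (((volume : Measure (Cn 3)).restrict UU).prod (haarU 2)) =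
      ((volume : Measure (Cn 3)).prod (haarU 2)).restrict (UU ×ˢ (univ : Set U2)) := by
    rw [← Measure.prod_restrict, Measure.restrict_univ]
  obtain ⟨K, hK, hDD⟩ := DD_bound
  have hC := C_nonneg H ha
  have hCb := C_nonneg H hb
  have hmaj : Integrable (fun w : Cn 3 × U2 => K * 4 * C * Cb * (|φ (w.1 0)| * (g0 w.1).det.re))
      (((volume : Measure (Cn 3)).restrict UU).prod (haarU 2)) := by
    have h1 : Integrable (fun p : Cn 3 => |φ (p 0)| * (g0 p).det.re)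
      ((volume : Measure (Cn 3)).restrict UU) := H.int
    exact (h1.comp_fst (haarU 2)).const_mul _
  refine Integrable.mono' hmaj ?_ ?_
  · rw [hrestr]
    refine ContinuousOn.aestronglyMeasurable ?_ hmeas
    refine ContinuousOn.mul ?_ ?_
    · refine Continuous.continuousOn ?_
      exact Complex.continuous_ofReal.comp (hφ.comp ((continuous_apply 0).comp continuous_fst))
    · refine contOn_DD ?_ ?_ ?_
      · intro j k
        exact (H.rc j k).comp continuous_fst.continuousOn (fun w hw => hw.1)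
      · intro j k
        have h1 : ContinuousOn (fun w : Cn 3 × U2 => G a j k (ie w.2, w.1)) (UU ×ˢ univ) := by
          refine (G_contDiffOn ha.c1 j k).continuousOn.comp ?_ ?_
          · exact ((ie_cont.comp continuous_snd).prodMk continuous_fst).continuousOn
          · intro w hw
            exact ⟨mem_univ _, hw.1⟩
        exact h1
      · intro j k
        exact (hb.c1 j k).continuousOn.comp continuous_fst.continuousOn (fun w hw => hw.1)
  · rw [hrestr]
    refine ae_restrict_of_forall_mem hmeas ?_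
    rintro ⟨p, W⟩ ⟨hp, -⟩
    change ‖(φ (p 0) : ℂ) * DD (rho0 p) (rot ((W⁻¹ : U2) : Matrix (Fin 2) (Fin 2) ℂ) a p) (b p)‖ ≤ _
    rw [norm_mul, Complex.norm_real, Real.norm_eq_abs]
    have h1 := hDD (g0 p) (rho0 p) (rot ((W⁻¹ : U2) : Matrix (Fin 2) (Fin 2) ℂ) a p) (b p) 4 C Cb
      (H.g0h p hp) (H.g0p p hp) (H.rh p hp) ((hrot _ (W⁻¹).2).herm p hp) (hb.herm p hp)
      (by norm_num) hC hCb (H.rb p hp) ((hrot _ (W⁻¹).2).bdd p hp) (hb.bdd p hp)
    calc |φ (p 0)| * ‖DD (rho0 p) (rot ((W⁻¹ : U2) : Matrix (Fin 2) (Fin 2) ℂ) a p) (b p)‖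
        ≤ |φ (p 0)| * (K * 4 * C * Cb * (g0 p).det.re) :=
          mul_le_mul_of_nonneg_left h1 (abs_nonneg _)
      _ = K * 4 * C * Cb * (|φ (p 0)| * (g0 p).det.re) := by ring

theorem Phi_av {Γ : Subgroup SL(2, ℝ)} {φ : ℂ → ℝ} (hφ : Continuous φ) (H : Facts φ)
    {a b : Cn 3 → M3} {C Cb : ℝ} (ha : IsForm Γ a C) (hb : IsForm Γ b Cb)
    (hrot : ∀ W ∈ Matrix.unitaryGroup (Fin 2) ℂ, IsForm Γ (rot W a) C)
    (hinv : ∀ W ∈ Matrix.unitaryGroup (Fin 2) ℂ, Phi φ (rot W a) b = Phi φ a b) :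
    Phi φ (av a) b = Phi φ a b := by
  have h1 : Phi φ (av a) b = ∫ p in UU, ∫ W : U2, (φ (p 0) : ℂ) *
      DD (rho0 p) (rot ((W⁻¹ : U2) : Matrix (Fin 2) (Fin 2) ℂ) a p) (b p) ∂haarU 2 := by
    unfold Phi
    refine setIntegral_congr_fun isOpen_UU.measurableSet fun p hp => ?_
    change (φ (p 0) : ℂ) * DD (rho0 p) (av a p) (b p) = _
    rw [DD_av ha.c1 hp, integral_const_mul]
  rw [h1, integral_integral_swap (integrable_uncurry hφ H ha hb hrot)]
  have h2 : ∀ W : U2, (∫ p in UU, (φ (p 0) : ℂ) *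
      DD (rho0 p) (rot ((W⁻¹ : U2) : Matrix (Fin 2) (Fin 2) ℂ) a p) (b p)) = Phi φ a b := fun W =>
    hinv _ (W⁻¹).2
  simp only [h2]
  simp

theorem Phi_symm (φ : ℂ → ℝ) (a b : Cn 3 → M3) : Phi φ a b = Phi φ b a := by
  have h : (fun p => (φ (p 0) : ℂ) * DD (rho0 p) (a p) (b p)) =
      fun p => (φ (p 0) : ℂ) * DD (rho0 p) (b p) (a p) := by
    funext p
    rw [(DD_symm (rho0 p) (a p) (b p)).1]
  unfold Phi
  rw [h]

theorem exists_average_aux {Γ : Subgroup SL(2, ℝ)} {φ : ℂ → ℝ} (hφ : Cutoff Γ φ) (H : Facts φ)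
    (hrot : ∀ (a : Cn 3 → M3) (C : ℝ), IsForm Γ a C → ∀ W ∈ Matrix.unitaryGroup (Fin 2) ℂ,
      IsForm Γ (rot W a) C)
    (hinv : ∀ (a b : Cn 3 → M3) (Ca Cb : ℝ), IsForm Γ a Ca → IsForm Γ b Cb →
      ∀ W ∈ Matrix.unitaryGroup (Fin 2) ℂ, Phi φ (rot W a) b = Phi φ a b)
    {a : Cn 3 → M3} {C : ℝ} (ha : IsForm Γ a C)
    (hpos : ∀ p ∈ UU, ∀ v : Cn 3, v ≠ 0 → 0 < (hf (a p) v).re) :
    ∃ a' : Cn 3 → M3, IsForm Γ a' C ∧ RotInv a' ∧
      (∀ p ∈ UU, ∀ v : Cn 3, v ≠ 0 → 0 < (hf (a' p) v).re) ∧ Phi φ a' a' = Phi φ a a := by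
  have ha' : IsForm Γ (av a) C := av_isForm ha (hrot a C ha)
  refine ⟨av a, ha', av_rotInv ha, fun p hp v hv => av_pos ha hpos hp hv, ?_⟩
  have hc : Continuous φ := hφ.smooth.continuous
  rw [Phi_av hc H ha ha' (hrot a C ha) (hinv a (av a) C C ha ha'), Phi_symm φ a (av a),
    Phi_av hc H ha ha (hrot a C ha) (hinv a a C C ha ha)]

end Pool.Agent.TH195.J121
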