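import Pool.Agent.TH195.J121d

/-! Job 121, part e: the facts on `g0` and `rho0`. -/

set_option autoImplicit false

open scoped Manifold ContDiff Topology ComplexConjugate MatrixGroups UpperHalfPlane Matrix
open MeasureTheory Set Filter

namespace Pool.Agent.TH195.J121

open Pool.Agent.TH598.KG
open Pool.Agent.W549.CY (Cn dz dzbar HermitianMetric chernRicci chernScalar)
open Pool.Agent.W711.KC (jj nn)
open Pool.Agent.Helper509.SphDefs
open Pool.Agent.TH343.J117

theorem Nn_pos {p : Cn 3} (hp : p ∈ UU) : 0 < Nn p := by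
  have h0 : 0 < (p 0).im := hp
  unfold Nn nsq
  have := Complex.normSq_nonneg (p 1)
  have := Complex.normSq_nonneg (p 2)
  linarith

theorem Nn_eq (p : Cn 3) : (Nn p : ℂ) = ((p 0).im : ℂ) + p 1 * conj (p 1) + p 2 * conj (p 2) := by
  unfold Nn nsq
  rw [Complex.mul_conj, Complex.mul_conj]
  push_cast
  ring

/-- the form `Th` as a sum of squares -/
theorem hf_Th {p : Cn 3} (hp : p ∈ UU) (v : Cn 3) : hf (Th p) v =
    (((p 0).im * (Complex.normSq (v 1 + Complex.I / (2 * ((p 0).im : ℂ)) * p 1 * v 0) +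
      Complex.normSq (v 2 + Complex.I / (2 * ((p 0).im : ℂ)) * p 2 * v 0)) +
      Complex.normSq (v 1 * p 2 - v 2 * p 1) +
      Complex.normSq (v 0) * (nsq p * Nn p / (4 * (p 0).im ^ 2))) / Nn p ^ 2 : ℝ) := by
  have h0 : 0 < (p 0).im := hp
  have hy : ((p 0).im : ℂ) ≠ 0 := by exact_mod_cast h0.ne'
  have hN : (Nn p : ℂ) ≠ 0 := by exact_mod_cast (Nn_pos hp).ne'
  have hr : (nsq p : ℂ) = p 1 * conj (p 1) + p 2 * conj (p 2) := by
    unfold nsq
    rw [Complex.mul_conj, Complex.mul_conj]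
    push_cast; ring
  have hI : Complex.I * Complex.I = -1 := Complex.I_mul_I
  have hI2 : Complex.I ^ 2 = -1 := Complex.I_sq
  push_cast
  simp only [← Complex.mul_conj]
  rw [eq_div_iff (pow_ne_zero 2 hN), hr]
  simp only [map_add, map_sub, map_mul, map_div₀, Complex.conj_I, Complex.conj_ofReal, map_ofNat]
  unfold hf
  simp only [Fin.sum_univ_three]
  simp only [Th, Matrix.of_apply, Matrix.cons_val', Matrix.cons_val_zero, Matrix.cons_val_one,
    Matrix.cons_val_two, Matrix.empty_val', Matrix.cons_val_fin_one, Matrix.head_cons,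
    Matrix.tail_cons, Matrix.head_fin_const]
  field_simp
  rw [Nn_eq]
  generalize ((p 0).im : ℂ) = y
  generalize conj (p 1) = p1'
  generalize conj (p 2) = p2'
  generalize conj (v 0) = v0'
  generalize conj (v 1) = v1'
  generalize conj (v 2) = v2'
  generalize p 1 = p1
  generalize p 2 = p2
  generalize v 0 = v0
  generalize v 1 = v1
  generalize v 2 = v2
  ring_nf
  simp only [hI2]
  ring

theorem hf_omC (p v : Cn 3) : hf (omC p) v =
    ((Complex.normSq (v 0) / (2 * (p 0).im ^ 2) : ℝ) : ℂ) := by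
  push_cast
  rw [← Complex.mul_conj]
  unfold hf
  simp only [Fin.sum_univ_three]
  simp only [omC, Matrix.of_apply, Matrix.cons_val', Matrix.cons_val_zero, Matrix.cons_val_one,
    Matrix.cons_val_two, Matrix.empty_val', Matrix.cons_val_fin_one, Matrix.head_cons,
    Matrix.tail_cons, Matrix.head_fin_const]
  ring

theorem hf_add {n : ℕ} (A B : Matrix (Fin n) (Fin n) ℂ) (v : Cn n) :
    hf (A + B) v = hf A v + hf B v := by
  unfold hf
  simp only [Matrix.add_apply, add_mul, Finset.sum_add_distrib]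

theorem hf_smul {n : ℕ} (c : ℂ) (A : Matrix (Fin n) (Fin n) ℂ) (v : Cn n) :
    hf (c • A) v = c * hf A v := by
  unfold hf
  simp only [Matrix.smul_apply, smul_eq_mul, Finset.mul_sum, mul_assoc]

theorem hf_conjT {n : ℕ} (A : Matrix (Fin n) (Fin n) ℂ) (v : Cn n) :
    hf Aᴴ v = conj (hf A v) := by
  unfold hf
  simp only [map_sum, map_mul, Complex.conj_conj]
  rw [Finset.sum_comm]
  refine Finset.sum_congr rfl fun i _ => Finset.sum_congr rfl fun j _ => ?_
  rw [Matrix.conjTranspose_apply]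
  simp only [RCLike.star_def]
  ring

theorem herm_of_real {n : ℕ} {A : Matrix (Fin n) (Fin n) ℂ}
    (h : ∀ v : Cn n, ∃ r : ℝ, hf A v = (r : ℂ)) : A.IsHermitian := by
  refine hf_ext fun v => ?_
  obtain ⟨r, hr⟩ := h v
  rw [hf_conjT, hr, Complex.conj_ofReal]

theorem hf_g0 (p v : Cn 3) : hf (g0 p) v = hf (Th p) v + (1 / 2) * hf (omC p) v := by
  unfold g0
  rw [hf_add, hf_smul]

theorem hf_rho0 (p v : Cn 3) : hf (rho0 p) v = 3 * hf (Th p) v - 2 * hf (omC p) v := by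
  unfold rho0
  rw [hf_sub, hf_smul, hf_smul]

theorem g0_herm {p : Cn 3} (hp : p ∈ UU) : (g0 p).IsHermitian := by
  refine herm_of_real fun v => ?_
  obtain ⟨r, hr⟩ : ∃ r : ℝ, hf (Th p) v = (r : ℂ) := ⟨_, hf_Th hp v⟩
  obtain ⟨s, hs⟩ : ∃ s : ℝ, hf (omC p) v = (s : ℂ) := ⟨_, hf_omC p v⟩
  refine ⟨r + (1 / 2) * s, ?_⟩
  rw [hf_g0, hr, hs]
  push_cast
  ring

theorem rho0_herm {p : Cn 3} (hp : p ∈ UU) : (rho0 p).IsHermitian := by
  refine herm_of_real fun v => ?_
  obtain ⟨r, hr⟩ : ∃ r : ℝ, hf (Th p) v = (r : ℂ) := ⟨_, hf_Th hp v⟩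
  obtain ⟨s, hs⟩ : ∃ s : ℝ, hf (omC p) v = (s : ℂ) := ⟨_, hf_omC p v⟩
  refine ⟨3 * r - 2 * s, ?_⟩
  rw [hf_rho0, hr, hs]
  push_cast
  ring

theorem nsq_nonneg (p : Cn 3) : 0 ≤ nsq p :=
  add_nonneg (Complex.normSq_nonneg _) (Complex.normSq_nonneg _)

theorem Th_nonneg {p : Cn 3} (hp : p ∈ UU) (v : Cn 3) : 0 ≤ (hf (Th p) v).re := by
  have h0 : 0 < (p 0).im := hp
  have hN := Nn_pos hp
  have hr := nsq_nonneg p
  rw [hf_Th hp, Complex.ofReal_re]
  have h1 := Complex.normSq_nonneg (v 1 + Complex.I / (2 * ((p 0).im : ℂ)) * p 1 * v 0)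
  have h2 := Complex.normSq_nonneg (v 2 + Complex.I / (2 * ((p 0).im : ℂ)) * p 2 * v 0)
  have h3 := Complex.normSq_nonneg (v 1 * p 2 - v 2 * p 1)
  have h4 := Complex.normSq_nonneg (v 0)
  positivity

theorem omC_nonneg (p v : Cn 3) : 0 ≤ (hf (omC p) v).re := by
  rw [hf_omC, Complex.ofReal_re]
  have h4 := Complex.normSq_nonneg (v 0)
  positivity

theorem g0_re (p v : Cn 3) : (hf (g0 p) v).re = (hf (Th p) v).re + (1 / 2) * (hf (omC p) v).re := by
  rw [hf_g0]
  simp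

theorem rho0_re (p v : Cn 3) : (hf (rho0 p) v).re = 3 * (hf (Th p) v).re - 2 * (hf (omC p) v).re := by
  rw [hf_rho0]
  simp

theorem g0_pos {p : Cn 3} (hp : p ∈ UU) {v : Cn 3} (hv : v ≠ 0) : 0 < (hf (g0 p) v).re := by
  have h0 : 0 < (p 0).im := hp
  have hN := Nn_pos hp
  have hr := nsq_nonneg p
  rw [g0_re]
  by_cases h : v 0 = 0
  · have h12 : 0 < Complex.normSq (v 1) + Complex.normSq (v 2) := by
      by_contra hcon
      have a1 := Complex.normSq_nonneg (v 1)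
      have a2 := Complex.normSq_nonneg (v 2)
      apply hv
      have b1 : v 1 = 0 := Complex.normSq_eq_zero.mp (by linarith)
      have b2 : v 2 = 0 := Complex.normSq_eq_zero.mp (by linarith)
      funext i
      fin_cases i
      · exact h
      · exact b1
      · exact b2
    have h5 := omC_nonneg p v
    have h6 : 0 < (hf (Th p) v).re := by
      rw [hf_Th hp, Complex.ofReal_re, h]
      simp only [mul_zero, add_zero, map_zero, zero_mul]
      have h3 := Complex.normSq_nonneg (v 1 * p 2 - v 2 * p 1)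
      positivity
    linarith
  · have h5 := Th_nonneg hp v
    have h6 : 0 < (hf (omC p) v).re := by
      rw [hf_omC, Complex.ofReal_re]
      have := Complex.normSq_pos.mpr h
      positivity
    linarith

theorem bdd_rho0 : Bdd rho0 4 := by
  intro p hp v
  have h1 := Th_nonneg hp v
  have h2 := omC_nonneg p v
  rw [g0_re, rho0_re, abs_le]
  constructor <;> linarith

theorem det_g0 {p : Cn 3} (hp : p ∈ UU) :
    (g0 p).det = (((p 0).im + 2 * nsq p : ℝ) : ℂ) / (4 * ((p 0).im : ℂ) * (Nn p : ℂ) ^ 4) := by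
  have h0 : 0 < (p 0).im := hp
  have hy : ((p 0).im : ℂ) ≠ 0 := by exact_mod_cast h0.ne'
  have hN : (Nn p : ℂ) ≠ 0 := by exact_mod_cast (Nn_pos hp).ne'
  have hr : (nsq p : ℂ) = p 1 * conj (p 1) + p 2 * conj (p 2) := by
    unfold nsq
    rw [Complex.mul_conj, Complex.mul_conj]
    push_cast; ring
  have hI : Complex.I * Complex.I = -1 := Complex.I_mul_I
  have hI2 : Complex.I ^ 2 = -1 := Complex.I_sq
  push_cast
  rw [hr, Matrix.det_fin_three]
  unfold g0
  simp only [Matrix.add_apply, Matrix.smul_apply, smul_eq_mul]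
  simp only [Th, omC, Matrix.of_apply, Matrix.cons_val', Matrix.cons_val_zero,
    Matrix.cons_val_one, Matrix.cons_val_two, Matrix.empty_val', Matrix.cons_val_fin_one,
    Matrix.head_cons, Matrix.tail_cons, Matrix.head_fin_const]
  have hNe := Nn_eq p
  rw [eq_div_iff (mul_ne_zero (mul_ne_zero (by norm_num) hy) (pow_ne_zero 4 hN))]
  field_simp
  rw [hNe]
  generalize ((p 0).im : ℂ) = y
  generalize conj (p 1) = p1'
  generalize conj (p 2) = p2'
  generalize p 1 = p1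
  generalize p 2 = p2
  ring_nf
  simp only [hI2]
  ring

theorem contOn_rho0 (j k : Fin 3) : ContinuousOn (fun p => rho0 p j k) UU := by
  have hy : ContinuousOn (fun p : Cn 3 => ((p 0).im : ℂ)) UU := by fun_prop
  have hy0 : ∀ p ∈ UU, ((p 0).im : ℂ) ≠ 0 := by
    intro p hp
    have h0 : 0 < (p 0).im := hp
    exact_mod_cast h0.ne'
  have hN : ContinuousOn (fun p : Cn 3 => (Nn p : ℂ)) UU := by
    unfold Nn nsq
    simp only [Complex.normSq_apply]
    fun_prop
  have hN0 : ∀ p ∈ UU, (Nn p : ℂ) ≠ 0 := by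
    intro p hp
    exact_mod_cast (Nn_pos hp).ne'
  have hN2 : ContinuousOn (fun p : Cn 3 => (Nn p : ℂ) ^ 2) UU := hN.pow 2
  have hN20 : ∀ p ∈ UU, (Nn p : ℂ) ^ 2 ≠ 0 := fun p hp => pow_ne_zero 2 (hN0 p hp)
  have hy2 : ContinuousOn (fun p : Cn 3 => ((p 0).im : ℂ) ^ 2) UU := hy.pow 2
  have hy20 : ∀ p ∈ UU, ((p 0).im : ℂ) ^ 2 ≠ 0 := fun p hp => pow_ne_zero 2 (hy0 p hp)
  have c1 : ∀ i : Fin 3, ContinuousOn (fun p : Cn 3 => p i) UU := fun i => by fun_prop
  have c2 : ∀ i : Fin 3, ContinuousOn (fun p : Cn 3 => conj (p i)) UU := fun i =>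
    Complex.continuous_conj.comp_continuousOn (c1 i)
  have cc : ∀ c : ℂ, ContinuousOn (fun _ : Cn 3 => c) UU := fun c => continuousOn_const
  have q1 : ContinuousOn (fun p : Cn 3 => (1 : ℂ) / (2 * ((p 0).im : ℂ) ^ 2)) UU :=
    (cc 1).div ((cc 2).mul hy2) (fun p hp => mul_ne_zero (by norm_num) (hy20 p hp))
  have q2 : ContinuousOn (fun p : Cn 3 => -(1 / (4 * (Nn p : ℂ) ^ 2)) +
      1 / (4 * ((p 0).im : ℂ) ^ 2)) UU :=
    (((cc 1).div ((cc 4).mul hN2) (fun p hp => mul_ne_zero (by norm_num) (hN20 p hp))).neg).add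
      ((cc 1).div ((cc 4).mul hy2) (fun p hp => mul_ne_zero (by norm_num) (hy20 p hp)))
  have q3 : ∀ i : Fin 3, ContinuousOn (fun p : Cn 3 => Complex.I / 2 * p i / (Nn p : ℂ) ^ 2) UU :=
    fun i => ((cc (Complex.I / 2)).mul (c1 i)).div hN2 hN20
  have q4 : ∀ i : Fin 3, ContinuousOn (fun p : Cn 3 =>
      -(Complex.I / 2 * conj (p i) / (Nn p : ℂ) ^ 2)) UU :=
    fun i => (((cc (Complex.I / 2)).mul (c2 i)).div hN2 hN20).neg
  have q5 : ∀ i l : Fin 3, ContinuousOn (fun p : Cn 3 =>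
      1 / (Nn p : ℂ) - conj (p i) * p l / (Nn p : ℂ) ^ 2) UU :=
    fun i l => ((cc 1).div hN hN0).sub (((c2 i).mul (c1 l)).div hN2 hN20)
  have q6 : ∀ i l : Fin 3, ContinuousOn (fun p : Cn 3 =>
      -(conj (p i) * p l / (Nn p : ℂ) ^ 2)) UU :=
    fun i l => (((c2 i).mul (c1 l)).div hN2 hN20).neg
  have hom : ContinuousOn (fun p => omC p j k) UU := by
    fin_cases j <;> fin_cases k
    · exact q1
    all_goals exact cc 0
  have hTh : ContinuousOn (fun p => Th p j k) UU := by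
    fin_cases j <;> fin_cases k
    · exact q2
    · exact q3 1
    · exact q3 2
    · exact q4 1
    · exact q5 1 1
    · exact q6 1 2
    · exact q4 2
    · exact q6 2 1
    · exact q5 2 2
  have e : (fun p => rho0 p j k) = fun p => 3 * Th p j k - 2 * omC p j k := by
    funext p
    unfold rho0
    rw [Matrix.sub_apply, Matrix.smul_apply, Matrix.smul_apply, smul_eq_mul, smul_eq_mul]
  rw [e]
  exact ((cc 3).mul hTh).sub ((cc 2).mul hom)

theorem det_g0_re {p : Cn 3} (hp : p ∈ UU) :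
    (g0 p).det.re = ((p 0).im + 2 * nsq p) / (4 * (p 0).im * Nn p ^ 4) := by
  rw [det_g0 hp]
  have : (((p 0).im + 2 * nsq p : ℝ) : ℂ) / (4 * ((p 0).im : ℂ) * (Nn p : ℂ) ^ 4) =
      (((((p 0).im + 2 * nsq p) / (4 * (p 0).im * Nn p ^ 4) : ℝ)) : ℂ) := by
    push_cast; ring
  rw [this, Complex.ofReal_re]

theorem det_g0_le {p : Cn 3} (hp : p ∈ UU) :
    (g0 p).det.re ≤ 1 / (2 * (p 0).im * Nn p ^ 3) := by
  have h0 : 0 < (p 0).im := hp
  have hN := Nn_pos hp
  have hr := nsq_nonneg p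
  rw [det_g0_re hp, div_le_div_iff₀ (by positivity) (by positivity)]
  have e : Nn p = (p 0).im + nsq p := rfl
  have h1 : (p 0).im + 2 * nsq p ≤ 2 * Nn p := by rw [e]; linarith
  calc ((p 0).im + 2 * nsq p) * (2 * (p 0).im * Nn p ^ 3)
      ≤ (2 * Nn p) * (2 * (p 0).im * Nn p ^ 3) :=
        mul_le_mul_of_nonneg_right h1 (by positivity)
    _ = 1 * (4 * (p 0).im * Nn p ^ 4) := by ring

/-- the one variable majorant -/
noncomputable def hh (u : ℂ) : ℝ := ((1 : ℝ) + ‖u‖ ^ 2) ^ (-(3 : ℝ) / 2)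

theorem hh_int : Integrable hh := by
  unfold hh
  apply integrable_rpow_neg_one_add_norm_sq
  simp [Complex.finrank_real_complex]
  norm_num

theorem prod_int {f : ℂ → ℝ} (hf : Integrable f) :
    Integrable (fun p : Cn 3 => f (p 0) * hh (p 1) * hh (p 2)) := by
  have h := Integrable.fintype_prod (ι := Fin 3) (μ := fun _ => (volume : Measure ℂ))
    (f := fun i => if i = 0 then f else hh) (𝕜 := ℝ) (by
      intro i
      split_ifs
      · exact hf
      · exact hh_int)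
  refine h.congr (Eventually.of_forall fun p => ?_)
  simp [Fin.prod_univ_three]

theorem hh_mul (u w : ℂ) : 1 / (1 + (‖u‖ ^ 2 + ‖w‖ ^ 2)) ^ 3 ≤ hh u * hh w := by
  have ha : 0 ≤ ‖u‖ ^ 2 := by positivity
  have hb : 0 ≤ ‖w‖ ^ 2 := by positivity
  have hc : 0 < 1 + (‖u‖ ^ 2 + ‖w‖ ^ 2) := by positivity
  have h1 : (1 + (‖u‖ ^ 2 + ‖w‖ ^ 2)) ^ (-(3 : ℝ) / 2) ≤ hh u :=
    Real.rpow_le_rpow_of_nonpos (by positivity) (by linarith) (by norm_num)
  have h2 : (1 + (‖u‖ ^ 2 + ‖w‖ ^ 2)) ^ (-(3 : ℝ) / 2) ≤ hh w :=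
    Real.rpow_le_rpow_of_nonpos (by positivity) (by linarith) (by norm_num)
  have h3 : (1 + (‖u‖ ^ 2 + ‖w‖ ^ 2)) ^ (-(3 : ℝ) / 2) * (1 + (‖u‖ ^ 2 + ‖w‖ ^ 2)) ^ (-(3 : ℝ) / 2)
      = 1 / (1 + (‖u‖ ^ 2 + ‖w‖ ^ 2)) ^ 3 := by
    rw [← Real.rpow_add hc]
    have : (-(3 : ℝ) / 2 + -3 / 2) = -((3 : ℕ) : ℝ) := by norm_num
    rw [this, Real.rpow_neg hc.le, Real.rpow_natCast, one_div]
  rw [← h3]
  exact mul_le_mul h1 h2 (Real.rpow_nonneg hc.le _) ((Real.rpow_nonneg hc.le _).trans h1)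

theorem int_det {φ : ℂ → ℝ} (hφ : Continuous φ) (hφc : HasCompactSupport φ)
    (hs : tsupport φ ⊆ {z | 0 < z.im}) :
    IntegrableOn (fun p : Cn 3 => |φ (p 0)| * (g0 p).det.re) UU := by
  obtain ⟨y0, hy0, hy1, hy⟩ : ∃ y0 : ℝ, 0 < y0 ∧ y0 ≤ 1 ∧ ∀ z ∈ tsupport φ, y0 ≤ z.im := by
    rcases (tsupport φ).eq_empty_or_nonempty with h | h
    · exact ⟨1, one_pos, le_rfl, fun z hz => by rw [h] at hz; exact absurd hz (notMem_empty z)⟩
    · obtain ⟨z0, hz0, hmin⟩ := IsCompact.exists_isMinOn hφc h Complex.continuous_im.continuousOn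
      refine ⟨min z0.im 1, lt_min (hs hz0) one_pos, min_le_right _ _, fun z hz => ?_⟩
      exact (min_le_left _ _).trans (hmin hz)
  have hint : Integrable (fun p : Cn 3 => (1 / (2 * y0 ^ 4)) *
      (|φ (p 0)| * hh (p 1) * hh (p 2))) := by
    refine (prod_int (f := fun z => |φ z|) ?_).const_mul _
    exact (hφ.integrable_of_hasCompactSupport hφc).abs
  refine Integrable.mono' hint.integrableOn ?_ ?_
  · refine ContinuousOn.aestronglyMeasurable ?_ isOpen_UU.measurableSet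
    refine ContinuousOn.mul ?_ ?_
    · exact (hφ.comp (continuous_apply 0)).abs.continuousOn
    · have h1 : ContinuousOn (fun p : Cn 3 => ((p 0).im + 2 * nsq p) /
          (4 * (p 0).im * Nn p ^ 4)) UU := by
        refine ContinuousOn.div ?_ ?_ ?_
        · unfold nsq
          simp only [Complex.normSq_apply]
          fun_prop
        · unfold Nn nsq
          simp only [Complex.normSq_apply]
          fun_prop
        · intro p hp
          have h0 : 0 < (p 0).im := hp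
          have := Nn_pos hp
          positivity
      exact h1.congr fun p hp => det_g0_re hp
  · refine ae_restrict_of_forall_mem isOpen_UU.measurableSet fun p hp => ?_
    have h0 : 0 < (p 0).im := hp
    have hN := Nn_pos hp
    have hd0 : 0 ≤ (g0 p).det.re := by
      rw [det_g0_re hp]
      have := nsq_nonneg p
      positivity
    rw [norm_mul, Real.norm_eq_abs, Real.norm_eq_abs, abs_abs, abs_of_nonneg hd0]
    by_cases hz : p 0 ∈ tsupport φ
    · have h1 := hy _ hz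
      have h2 : (g0 p).det.re ≤ (1 / (2 * y0 ^ 4)) * (hh (p 1) * hh (p 2)) := by
        refine (det_g0_le hp).trans ?_
        have h3 : y0 * (1 + (‖p 1‖ ^ 2 + ‖p 2‖ ^ 2)) ≤ Nn p := by
          unfold Nn nsq
          rw [Complex.normSq_eq_norm_sq, Complex.normSq_eq_norm_sq]
          have : 0 ≤ ‖p 1‖ ^ 2 + ‖p 2‖ ^ 2 := by positivity
          nlinarith
        have h4 : 1 / (2 * (p 0).im * Nn p ^ 3) ≤
            1 / (2 * y0 * (y0 * (1 + (‖p 1‖ ^ 2 + ‖p 2‖ ^ 2))) ^ 3) := by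
          apply one_div_le_one_div_of_le (by positivity)
          have h5 : (y0 * (1 + (‖p 1‖ ^ 2 + ‖p 2‖ ^ 2))) ^ 3 ≤ Nn p ^ 3 :=
            pow_le_pow_left₀ (by positivity) h3 3
          exact mul_le_mul (by linarith) h5 (by positivity) (by positivity)
        refine h4.trans ?_
        have h6 : 1 / (2 * y0 * (y0 * (1 + (‖p 1‖ ^ 2 + ‖p 2‖ ^ 2))) ^ 3) =
            (1 / (2 * y0 ^ 4)) * (1 / (1 + (‖p 1‖ ^ 2 + ‖p 2‖ ^ 2)) ^ 3) := by
          field_simp
        rw [h6]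
        exact mul_le_mul_of_nonneg_left (hh_mul _ _) (by positivity)
      calc |φ (p 0)| * (g0 p).det.re
          ≤ |φ (p 0)| * ((1 / (2 * y0 ^ 4)) * (hh (p 1) * hh (p 2))) :=
            mul_le_mul_of_nonneg_left h2 (abs_nonneg _)
        _ = _ := by ring
    · rw [image_eq_zero_of_notMem_tsupport hz]
      simp

theorem facts {Γ : Subgroup SL(2, ℝ)} {φ : ℂ → ℝ} (hφ : Cutoff Γ φ) : Facts φ where
  g0h _ hp := g0_herm hp
  g0p _ hp _ hv := g0_pos hp hv
  rh _ hp := rho0_herm hp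
  rb := bdd_rho0
  rc := contOn_rho0
  int := int_det hφ.smooth.continuous hφ.compact hφ.supp

/-- Averaging a closed form over the unitary group of the fibre. -/
theorem exists_average {Γ : Subgroup SL(2, ℝ)} {φ : ℂ → ℝ} (hφ : Cutoff Γ φ)
    (hrot : ∀ (a : Cn 3 → M3) (C : ℝ), IsForm Γ a C → ∀ W ∈ Matrix.unitaryGroup (Fin 2) ℂ,
      IsForm Γ (rot W a) C)
    (hinv : ∀ (a b : Cn 3 → M3) (Ca Cb : ℝ), IsForm Γ a Ca → IsForm Γ b Cb →
      ∀ W ∈ Matrix.unitaryGroup (Fin 2) ℂ, Phi φ (rot W a) b = Phi φ a b)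
    {a : Cn 3 → M3} {C : ℝ} (ha : IsForm Γ a C)
    (hpos : ∀ p ∈ UU, ∀ v : Cn 3, v ≠ 0 → 0 < (hf (a p) v).re) :
    ∃ a' : Cn 3 → M3, IsForm Γ a' C ∧ RotInv a' ∧
      (∀ p ∈ UU, ∀ v : Cn 3, v ≠ 0 → 0 < (hf (a' p) v).re) ∧ Phi φ a' a' = Phi φ a a :=
  exists_average_aux hφ (facts hφ) hrot hinv ha hpos

end Pool.Agent.TH195.J121
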