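import Mathlib

set_option autoImplicit false

open MeasureTheory Set Filter Topology
open scoped Real ContDiff

namespace Pool.Agent.TH195.J189

noncomputable def uu (θ : ℝ) : ℝ := θ + 2 * Real.arctan (Real.sin θ / (2 - Real.cos θ))

noncomputable def ell (E : ℝ → ℂ) : ℂ :=
  (1 / (2 * π : ℝ) : ℂ) * ∫ θ in (0:ℝ)..(2 * π), E θ / (1 - (1 / 2) * Complex.exp (-(Complex.I * θ)))

/-- the denominator -/
noncomputable def D (θ : ℝ) : ℂ := 1 - (1 / 2) * Complex.exp (-(Complex.I * θ))

theorem norm_exp_neg (θ : ℝ) : ‖Complex.exp (-(Complex.I * θ))‖ = 1 := by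
  have : -(Complex.I * (θ : ℂ)) = ((-θ : ℝ) : ℂ) * Complex.I := by push_cast; ring
  rw [this, Complex.norm_exp_ofReal_mul_I]

theorem D_re (θ : ℝ) : 1 / 2 ≤ (D θ).re := by
  have h1 : |(Complex.exp (-(Complex.I * θ))).re| ≤ 1 := by
    have := Complex.abs_re_le_norm (Complex.exp (-(Complex.I * θ)))
    rwa [norm_exp_neg] at this
  have h2 := (abs_le.mp h1).2
  have h3 : (D θ).re = 1 - (1 / 2) * (Complex.exp (-(Complex.I * θ))).re := by
    unfold D
    simp
  rw [h3]; linarith

theorem D_ne (θ : ℝ) : D θ ≠ 0 := by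
  intro h
  have := D_re θ
  rw [h] at this
  norm_num at this

theorem D_norm (θ : ℝ) : 1 / 2 ≤ ‖D θ‖ := le_trans (D_re θ) (Complex.re_le_norm _)

theorem D_cont : Continuous D := by
  unfold D; fun_prop

/-- the exponentials -/
noncomputable def ex (j : ℤ) (θ : ℝ) : ℂ := Complex.exp (Complex.I * θ) ^ j

theorem ex_cont (j : ℤ) : Continuous (ex j) := by
  unfold ex
  apply Continuous.zpow₀
  · fun_prop
  · intro a; left; exact Complex.exp_ne_zero _

theorem norm_ex (j : ℤ) (θ : ℝ) : ‖ex j θ‖ = 1 := by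
  unfold ex
  have : Complex.I * (θ : ℂ) = (θ : ℂ) * Complex.I := by ring
  rw [norm_zpow, this, Complex.norm_exp_ofReal_mul_I, one_zpow]

theorem ell_bound {E : ℝ → ℂ} {c : ℝ} (hc : ∀ θ, ‖E θ‖ ≤ c) : ‖ell E‖ ≤ 2 * c := by
  have hc0 : 0 ≤ c := le_trans (norm_nonneg _) (hc 0)
  have h1 : ∀ θ : ℝ, ‖E θ / (1 - (1 / 2) * Complex.exp (-(Complex.I * θ)))‖ ≤ 2 * c := by
    intro θ
    have h2 := D_norm θ
    unfold D at h2
    rw [norm_div, div_le_iff₀ (by linarith)]
    have := hc θ
    nlinarith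
  have h2 := intervalIntegral.norm_integral_le_of_norm_le_const (a := 0) (b := 2 * π)
    (fun x _ => h1 x)
  have hpi := Real.pi_pos
  rw [sub_zero, abs_of_pos (by positivity)] at h2
  unfold ell
  rw [norm_mul]
  have h3 : ‖(1 / (2 * π : ℝ) : ℂ)‖ = 1 / (2 * π) := by
    have e : (1 / (2 * π : ℝ) : ℂ) = ((1 / (2 * π) : ℝ) : ℂ) := by push_cast; ring
    rw [e, Complex.norm_real, Real.norm_eq_abs, abs_of_pos (by positivity)]
  rw [h3]
  calc _ ≤ 1 / (2 * π) * (2 * c * (2 * π)) := by
        apply mul_le_mul_of_nonneg_left h2 (by positivity)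
    _ = 2 * c := by field_simp

theorem ell_sub {E F : ℝ → ℂ} (hE : Continuous E) (hF : Continuous F) :
    ell (fun θ => E θ - F θ) = ell E - ell F := by
  unfold ell
  have c1 : Continuous fun θ => E θ / D θ := hE.div D_cont D_ne
  have c2 : Continuous fun θ => F θ / D θ := hF.div D_cont D_ne
  have := intervalIntegral.integral_sub (c1.intervalIntegrable (μ := volume) 0 (2 * π))
    (c2.intervalIntegrable _ _)
  unfold D at this
  rw [← mul_sub, ← this]
  congr 1
  apply intervalIntegral.integral_congr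
  intro θ _
  simp only []
  ring

theorem ell_smul (c : ℂ) (E : ℝ → ℂ) : ell (fun θ => c * E θ) = c * ell E := by
  unfold ell
  have : (fun θ : ℝ => c * E θ / (1 - (1 / 2) * Complex.exp (-(Complex.I * θ)))) =
      fun θ : ℝ => c * (E θ / (1 - (1 / 2) * Complex.exp (-(Complex.I * θ)))) := by
    funext θ; ring
  rw [this, intervalIntegral.integral_const_mul]
  ring

theorem ell_sum {ι : Type} (s : Finset ι) (E : ι → ℝ → ℂ) (hE : ∀ i, Continuous (E i)) :
    ell (fun θ => ∑ i ∈ s, E i θ) = ∑ i ∈ s, ell (E i) := by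
  unfold ell
  rw [← Finset.mul_sum, ← intervalIntegral.integral_finsetSum]
  · congr 1
    apply intervalIntegral.integral_congr
    intro θ _
    simp only []
    rw [Finset.sum_div]
  · intro i _
    have c1 : Continuous fun θ => E i θ / D θ := (hE i).div D_cont D_ne
    exact c1.intervalIntegrable _ _

theorem int_ex (j : ℤ) : ∫ θ in (0:ℝ)..(2 * π), ex j θ = if j = 0 then (2 * π : ℂ) else 0 := by
  by_cases hj : j = 0
  · subst hj
    simp [ex]
  · rw [if_neg hj]
    have e : ∀ θ : ℝ, ex j θ = Complex.exp ((Complex.I * j) * θ) := by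
      intro θ
      unfold ex
      rw [← Complex.exp_int_mul]
      congr 1; ring
    have hne : (Complex.I * j : ℂ) ≠ 0 := by
      apply mul_ne_zero Complex.I_ne_zero
      exact_mod_cast hj
    simp_rw [e]
    rw [integral_exp_mul_complex hne]
    have : Complex.I * (j : ℂ) * ((2 * π : ℝ) : ℂ) = j * (2 * π * Complex.I) := by push_cast; ring
    rw [this, Complex.exp_int_mul_two_pi_mul_I]
    simp

theorem ell_rec (j : ℤ) : ell (ex j) = (1 / 2) * ell (ex (j - 1)) + if j = 0 then 1 else 0 := by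
  have h1 : ell (fun θ => ex j θ - (1 / 2) * ex (j - 1) θ) =
      ell (ex j) - (1 / 2) * ell (ex (j - 1)) := by
    have hc : Continuous fun θ => (1 / 2 : ℂ) * ex (j - 1) θ := continuous_const.mul (ex_cont _)
    rw [ell_sub (ex_cont j) hc, ell_smul]
  have h2 : ell (fun θ => ex j θ - (1 / 2) * ex (j - 1) θ) = if j = 0 then 1 else 0 := by
    unfold ell
    have : ∀ θ : ℝ, (ex j θ - (1 / 2) * ex (j - 1) θ) /
        (1 - (1 / 2) * Complex.exp (-(Complex.I * θ))) = ex j θ := by
      intro θ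
      have hD := D_ne θ
      unfold D at hD
      rw [div_eq_iff hD]
      unfold ex
      rw [zpow_sub_one₀ (Complex.exp_ne_zero _), Complex.exp_neg]
      ring
    simp_rw [this]
    rw [int_ex]
    have hpi : (π : ℂ) ≠ 0 := by exact_mod_cast Real.pi_ne_zero
    split_ifs
    · push_cast; field_simp
    · simp
  rw [h2] at h1
  rw [h1]; ring

theorem ell_neg_one : ell (ex (-1)) = 0 := by
  have h : ∀ n : ℕ, ell (ex (-1 - n)) = 2 ^ n * ell (ex (-1)) := by
    intro n
    induction n with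
    | zero => simp
    | succ n ih =>
      have := ell_rec (-1 - n)
      rw [if_neg (by omega), add_zero] at this
      have e : (-1 - (n : ℤ) - 1) = (-1 - ((n + 1 : ℕ) : ℤ)) := by push_cast; ring
      rw [e, ih] at this
      rw [pow_succ]
      linear_combination (-2 : ℂ) * this
  by_contra hne
  have hpos : 0 < ‖ell (ex (-1))‖ := norm_pos_iff.mpr hne
  obtain ⟨n, hn⟩ := pow_unbounded_of_one_lt (2 / ‖ell (ex (-1))‖) (one_lt_two (α := ℝ))
  have h2 := ell_bound (E := ex (-1 - n)) (c := 1) (fun θ => (norm_ex _ θ).le)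
  rw [h n, norm_mul, norm_pow] at h2
  rw [div_lt_iff₀ hpos] at hn
  simp at h2
  linarith

theorem ell_neg (n : ℕ) : ell (ex (-1 - n)) = 0 := by
  induction n with
  | zero => simpa using ell_neg_one
  | succ n ih =>
    have := ell_rec (-1 - n)
    rw [if_neg (by omega), add_zero, ih] at this
    have e : (-1 - (n : ℤ) - 1) = (-1 - ((n + 1 : ℕ) : ℤ)) := by push_cast; ring
    rw [e] at this
    linear_combination (-2 : ℂ) * this

theorem ell_nonneg (n : ℕ) : ell (ex n) = (1 / 2) ^ n := by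
  induction n with
  | zero =>
    have := ell_rec 0
    rw [if_pos rfl] at this
    have e : ((0 : ℤ) - 1) = -1 := by norm_num
    rw [e, ell_neg_one] at this
    simpa using this
  | succ n ih =>
    have := ell_rec ((n : ℤ) + 1)
    rw [if_neg (by omega), add_zero] at this
    have e : ((n : ℤ) + 1 - 1) = n := by ring
    rw [e, ih] at this
    push_cast
    rw [this, pow_succ]; ring

theorem exp_arctan (x : ℝ) : Complex.exp (Complex.I * ((2 * Real.arctan x : ℝ) : ℂ)) =
    (1 + Complex.I * x) / (1 - Complex.I * x) := by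
  have hne : (1 - Complex.I * (x : ℂ)) ≠ 0 := by
    intro h
    have := congrArg Complex.re h
    simp at this
  have hne' : (1 + Complex.I * (x : ℂ)) ≠ 0 := by
    intro h
    have := congrArg Complex.re h
    simp at this
  set a := Real.arctan x with ha
  have hcos : Real.cos a ≠ 0 := (Real.cos_arctan_pos x).ne'
  have htan : Real.sin a = x * Real.cos a := by
    have := Real.tan_arctan x
    rw [← ha, Real.tan_eq_sin_div_cos, div_eq_iff hcos] at this
    exact this
  have h1 : Complex.exp (Complex.I * (a : ℂ)) = Real.cos a * (1 + Complex.I * x) := by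
    have : Complex.I * (a : ℂ) = (a : ℂ) * Complex.I := by ring
    rw [this, Complex.exp_mul_I, ← Complex.ofReal_cos, ← Complex.ofReal_sin, htan]
    push_cast; ring
  have h2 : Complex.exp (-(Complex.I * (a : ℂ))) = Real.cos a * (1 - Complex.I * x) := by
    have : -(Complex.I * (a : ℂ)) = ((-a : ℝ) : ℂ) * Complex.I := by push_cast; ring
    rw [this, Complex.exp_mul_I, ← Complex.ofReal_cos, ← Complex.ofReal_sin, Real.cos_neg,
      Real.sin_neg, htan]
    push_cast; ring
  have h3 : Complex.exp (Complex.I * (a : ℂ)) * Complex.exp (-(Complex.I * (a : ℂ))) = 1 := by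
    rw [← Complex.exp_add]; simp
  have h4 : Complex.exp (Complex.I * ((2 * a : ℝ) : ℂ)) =
      Complex.exp (Complex.I * (a : ℂ)) * Complex.exp (Complex.I * (a : ℂ)) := by
    rw [← Complex.exp_add]; congr 1; push_cast; ring
  rw [h4, eq_div_iff hne]
  have hcos' : (Real.cos a : ℂ) ≠ 0 := by exact_mod_cast hcos
  have h5 : (1 - Complex.I * (x : ℂ)) = Complex.exp (-(Complex.I * (a : ℂ))) / Real.cos a := by
    rw [h2]; field_simp
  rw [h5]
  have h6 : (1 + Complex.I * (x : ℂ)) = Complex.exp (Complex.I * (a : ℂ)) / Real.cos a := by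
    rw [h1]; field_simp
  rw [h6]
  have h7 : Complex.exp (Complex.I * (a : ℂ)) * Complex.exp (Complex.I * (a : ℂ)) *
      (Complex.exp (-(Complex.I * (a : ℂ))) / Real.cos a) =
      (Complex.exp (Complex.I * (a : ℂ)) * Complex.exp (-(Complex.I * (a : ℂ)))) *
        Complex.exp (Complex.I * (a : ℂ)) / Real.cos a := by ring
  rw [h7, h3, one_mul]

theorem two_sub_ne {z : ℂ} (hz : ‖z‖ = 1) : (2 - z) ≠ 0 := by
  intro h
  have : z = 2 := by linear_combination -h
  rw [this] at hz
  norm_num at hz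

theorem two_add_ne {z : ℂ} (hz : ‖z‖ = 1) : (2 + z) ≠ 0 := by
  intro h
  have : z = -2 := by linear_combination h
  rw [this] at hz
  norm_num at hz

theorem moebius (θ : ℝ) : Complex.exp (Complex.I * θ) =
    (2 * Complex.exp (Complex.I * (uu θ : ℂ)) + 1) / (2 + Complex.exp (Complex.I * (uu θ : ℂ))) := by
  set z := Complex.exp (Complex.I * (θ : ℂ)) with hz
  have hzn : ‖z‖ = 1 := by
    rw [hz, show Complex.I * (θ : ℂ) = (θ : ℂ) * Complex.I by ring, Complex.norm_exp_ofReal_mul_I]
  have hw1 : ‖Complex.exp (Complex.I * (uu θ : ℂ))‖ = 1 := by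
    rw [show Complex.I * (uu θ : ℂ) = (uu θ : ℂ) * Complex.I by ring, Complex.norm_exp_ofReal_mul_I]
  have hc : (Real.cos θ : ℂ) = (z + z⁻¹) / 2 := by
    rw [hz, ← Complex.exp_neg, Complex.ofReal_cos, Complex.cos]
    congr 3
    · ring
    · ring
  have hs : (Real.sin θ : ℂ) = (z⁻¹ - z) * Complex.I / 2 := by
    rw [hz, ← Complex.exp_neg, Complex.ofReal_sin, Complex.sin]
    congr 3
    · congr 1; ring
    · congr 1; ring
  have hz0 : z ≠ 0 := Complex.exp_ne_zero _
  have hI : Complex.I * Complex.I = -1 := Complex.I_mul_I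
  have hd : (2 - Real.cos θ) ≠ 0 := by
    have := Real.cos_le_one θ
    intro h; linarith
  have hd' : (2 - (Real.cos θ : ℂ)) ≠ 0 := by exact_mod_cast hd
  have h2z := two_sub_ne hzn
  have hw : Complex.exp (Complex.I * (uu θ : ℂ)) = (2 * z - 1) / (2 - z) := by
    have h1 : Complex.exp (Complex.I * (uu θ : ℂ)) = z * Complex.exp (Complex.I *
        ((2 * Real.arctan (Real.sin θ / (2 - Real.cos θ)) : ℝ) : ℂ)) := by
      rw [hz, ← Complex.exp_add]
      congr 1
      unfold uu
      push_cast; ring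
    rw [h1, exp_arctan]
    have h3 : (1 + Complex.I * ((Real.sin θ / (2 - Real.cos θ) : ℝ) : ℂ)) =
        (2 - z⁻¹) / (2 - Real.cos θ) := by
      rw [eq_div_iff hd']
      push_cast
      have : (1 + Complex.I * ((Real.sin θ : ℂ) / (2 - (Real.cos θ : ℂ)))) * (2 - (Real.cos θ : ℂ)) =
        (2 - (Real.cos θ : ℂ)) + Complex.I * (Real.sin θ : ℂ) := by field_simp
      push_cast at this
      rw [← Complex.ofReal_sin, ← Complex.ofReal_cos] at this ⊢
      rw [this, hc, hs]
      linear_combination ((z⁻¹ - z) / 2) * hI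
    have h4 : (1 - Complex.I * ((Real.sin θ / (2 - Real.cos θ) : ℝ) : ℂ)) =
        (2 - z) / (2 - Real.cos θ) := by
      rw [eq_div_iff hd']
      push_cast
      have : (1 - Complex.I * ((Real.sin θ : ℂ) / (2 - (Real.cos θ : ℂ)))) * (2 - (Real.cos θ : ℂ)) =
        (2 - (Real.cos θ : ℂ)) - Complex.I * (Real.sin θ : ℂ) := by field_simp
      push_cast at this
      rw [← Complex.ofReal_sin, ← Complex.ofReal_cos] at this ⊢
      rw [this, hc, hs]
      linear_combination (-(z⁻¹ - z) / 2) * hI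
    rw [h3, h4]
    field_simp
  rw [eq_div_iff (two_add_ne hw1), hw]
  field_simp
  ring

/-- trigonometric polynomials are dense -/
theorem trig_dense (E : ℝ → ℂ) (hE : Continuous E) (hper : ∀ x, E (x + 2 * π) = E x)
    {ε : ℝ} (hε : 0 < ε) : ∃ t : ℤ →₀ ℂ, ∀ θ : ℝ, ‖(t.sum fun j c => c * ex j θ) - E θ‖ < ε := by
  have : Fact (0 < 2 * π) := ⟨by positivity⟩
  let f : C(AddCircle (2 * π), ℂ) :=
    ⟨(show Function.Periodic E (2 * π) from hper).lift, by
      apply Continuous.quotient_lift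
      exact hE⟩
  have hmem : f ∈ (Submodule.span ℂ (range <| @fourier (2 * π))).topologicalClosure := by
    rw [span_fourier_closure_eq_top]; trivial
  rw [← SetLike.mem_coe, Submodule.topologicalClosure_coe, Metric.mem_closure_iff] at hmem
  obtain ⟨T, hT, hd⟩ := hmem ε hε
  rw [SetLike.mem_coe, Finsupp.mem_span_range_iff_exists_finsupp] at hT
  obtain ⟨t, rfl⟩ := hT
  refine ⟨t, fun θ => ?_⟩
  have h1 := (ContinuousMap.dist_lt_iff hε).mp hd (θ : AddCircle (2 * π))
  rw [dist_comm, dist_eq_norm] at h1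
  have key : (t.sum fun j c => c * ex j θ) =
      (t.sum fun i a => a • fourier i : C(AddCircle (2 * π), ℂ)) (θ : AddCircle (2 * π)) := ?_
  · rw [key]; exact h1
  rw [Finsupp.sum, Finsupp.sum, ContinuousMap.sum_apply]
  apply Finset.sum_congr rfl
  intro j _
  rw [ContinuousMap.smul_apply, fourier_coe_apply, smul_eq_mul]
  congr 1
  unfold ex
  rw [← Complex.exp_int_mul]
  congr 1
  have hpi : (π : ℂ) ≠ 0 := by exact_mod_cast Real.pi_ne_zero
  push_cast
  field_simp

/-- the polynomial approximations of the inverse Moebius map -/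
noncomputable def qK (K : ℕ) : Polynomial ℂ :=
  Polynomial.C 2 - Polynomial.C (3 / 2) *
    ∑ n ∈ Finset.range (K + 1), (Polynomial.C (-(1 / 2)) * Polynomial.X) ^ n

theorem qK_zero (K : ℕ) : (qK K).eval 0 = 1 / 2 := by
  unfold qK
  simp only [Polynomial.eval_sub, Polynomial.eval_mul, Polynomial.eval_C, Polynomial.eval_finsetSum,
    Polynomial.eval_pow, Polynomial.eval_X, mul_zero]
  rw [Finset.sum_range_succ']
  simp
  norm_num

theorem qK_approx (K : ℕ) {w : ℂ} (hw : ‖w‖ = 1) :
    ‖(qK K).eval w - (2 * w + 1) / (2 + w)‖ ≤ (3 / 2) * (1 / 2) ^ K := by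
  have h2 := two_add_ne hw
  have e : (qK K).eval w - (2 * w + 1) / (2 + w) =
      (3 / 2) * (-(1 / 2) * w) ^ (K + 1) * (2 / (2 + w)) := by
    unfold qK
    simp only [Polynomial.eval_sub, Polynomial.eval_mul, Polynomial.eval_C,
      Polynomial.eval_finsetSum, Polynomial.eval_pow, Polynomial.eval_X]
    have hne : (-(1 / 2) * w : ℂ) ≠ 1 := by
      intro h
      apply h2
      linear_combination (-2 : ℂ) * h
    rw [geom_sum_eq hne]
    have hne' : (-(1 / 2) * w - 1 : ℂ) ≠ 0 := sub_ne_zero.mpr hne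
    have h3 : (-(1 / 2) * w - 1 : ℂ) = -((2 + w) / 2) := by ring
    rw [h3]
    field_simp
    ring
  have n1 : ‖(3 / 2 : ℂ)‖ = 3 / 2 := by
    have : (3 / 2 : ℂ) = ((3 / 2 : ℝ) : ℂ) := by push_cast; ring
    rw [this, Complex.norm_real]; norm_num
  have n2 : ‖(-(1 / 2) : ℂ)‖ = 1 / 2 := by
    have : (-(1 / 2) : ℂ) = ((-(1 / 2) : ℝ) : ℂ) := by push_cast; ring
    rw [this, Complex.norm_real]; norm_num
  have n3 : ‖(2 : ℂ)‖ = 2 := by simp
  have n4 : 1 ≤ ‖2 + w‖ := by
    have := norm_sub_norm_le (2 : ℂ) (-w)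
    rw [norm_neg, hw, n3, sub_neg_eq_add] at this
    linarith
  rw [e, norm_mul, norm_mul, norm_pow, norm_mul, hw, norm_div (2 : ℂ), n1, n2, n3, mul_one,
    pow_succ]
  have n5 : 2 / ‖2 + w‖ ≤ 2 := by
    rw [div_le_iff₀ (by linarith)]; linarith
  calc 3 / 2 * ((1 / 2) ^ K * (1 / 2)) * (2 / ‖2 + w‖) ≤ 3 / 2 * ((1 / 2) ^ K * (1 / 2)) * 2 :=
        mul_le_mul_of_nonneg_left n5 (by positivity)
    _ = 3 / 2 * (1 / 2) ^ K := by ring

theorem seed_approx (E : ℝ → ℂ) (hE : Continuous E) (hper : ∀ x, E (x + 2 * π) = E x)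
    (hℓ : ell E = 1) (ε : ℝ) (hε : 0 < ε) :
    ∃ P Q : Polynomial ℂ, P.coeff 0 = 0 ∧ Q.coeff 0 = 0 ∧ ∀ θ : ℝ,
      ‖P.eval (Complex.exp (Complex.I * (uu θ : ℂ))) + 1
        + Q.eval (Complex.exp (-(Complex.I * (θ : ℂ)))) - E θ‖ ≤ ε := by
  have hε4 : 0 < ε / 4 := by linarith
  obtain ⟨t, ht⟩ := trig_dense E hE hper hε4
  let Tp : Polynomial ℂ := ∑ j ∈ t.support with 0 ≤ j, Polynomial.C (t j) * Polynomial.X ^ j.toNat
  let Q : Polynomial ℂ := ∑ j ∈ t.support with ¬ 0 ≤ j,
    Polynomial.C (t j) * Polynomial.X ^ (-j).toNat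
  have hQ0 : Q.coeff 0 = 0 := by
    simp only [Q]
    rw [Polynomial.finsetSum_coeff]
    apply Finset.sum_eq_zero
    intro j hj
    rw [Finset.mem_filter] at hj
    rw [Polynomial.coeff_C_mul, Polynomial.coeff_X_pow, if_neg, mul_zero]
    omega
  have hTQ : ∀ θ : ℝ, (t.sum fun j c => c * ex j θ) =
      Tp.eval (Complex.exp (Complex.I * (θ : ℂ))) + Q.eval (Complex.exp (-(Complex.I * (θ : ℂ)))) := by
    intro θ
    simp only [Tp, Q]
    rw [Finsupp.sum, Polynomial.eval_finsetSum, Polynomial.eval_finsetSum,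
      ← Finset.sum_filter_add_sum_filter_not t.support (fun j => 0 ≤ j)]
    congr 1
    · apply Finset.sum_congr rfl
      intro j hj
      rw [Finset.mem_filter] at hj
      simp only [Polynomial.eval_mul, Polynomial.eval_C, Polynomial.eval_pow, Polynomial.eval_X]
      congr 1
      unfold ex
      rw [← zpow_natCast, Int.toNat_of_nonneg hj.2]
    · apply Finset.sum_congr rfl
      intro j hj
      rw [Finset.mem_filter] at hj
      simp only [Polynomial.eval_mul, Polynomial.eval_C, Polynomial.eval_pow, Polynomial.eval_X]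
      congr 1
      unfold ex
      rw [← zpow_natCast, Int.toNat_of_nonneg (by omega), Complex.exp_neg, inv_zpow, zpow_neg,
        inv_inv]
  have hellT : ell (fun θ => t.sum fun j c => c * ex j θ) = Tp.eval (1 / 2) := by
    simp only [Finsupp.sum]
    rw [ell_sum _ (fun j θ => t j * ex j θ) (fun j => continuous_const.mul (ex_cont j))]
    simp only [Tp]
    rw [Polynomial.eval_finsetSum,
      ← Finset.sum_filter_add_sum_filter_not t.support (fun j => 0 ≤ j)]
    have z : ∑ j ∈ t.support with ¬ 0 ≤ j, ell (fun θ => t j * ex j θ) = 0 := by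
      apply Finset.sum_eq_zero
      intro j hj
      rw [Finset.mem_filter] at hj
      rw [ell_smul]
      have : ell (ex j) = 0 := by
        have e : j = -1 - ((-1 - j).toNat : ℤ) := by omega
        rw [e]; exact ell_neg _
      rw [this, mul_zero]
    rw [z, add_zero]
    apply Finset.sum_congr rfl
    intro j hj
    rw [Finset.mem_filter] at hj
    simp only [Polynomial.eval_mul, Polynomial.eval_C, Polynomial.eval_pow, Polynomial.eval_X]
    rw [ell_smul]
    congr 1
    have e : j = (j.toNat : ℤ) := by omega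
    conv_lhs => rw [e]
    exact ell_nonneg _
  have hTc : Continuous fun θ => t.sum fun j c => c * ex j θ := by
    simp only [Finsupp.sum]
    apply continuous_finsetSum
    intro j _
    exact continuous_const.mul (ex_cont j)
  have h1 : ‖Tp.eval (1 / 2) - 1‖ ≤ 2 * (ε / 4) := by
    rw [← hellT, ← hℓ, ← ell_sub hTc hE]
    exact ell_bound (fun θ => (ht θ).le)
  -- uniform continuity
  have hcomp : IsCompact (Metric.closedBall (0 : ℂ) 4) := isCompact_closedBall 0 4
  have huc := hcomp.uniformContinuousOn_of_continuous (f := fun z => Tp.eval z)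
    Tp.continuous.continuousOn
  rw [Metric.uniformContinuousOn_iff] at huc
  obtain ⟨δ, hδ, huc⟩ := huc (ε / 4) hε4
  obtain ⟨K, hK⟩ : ∃ K : ℕ, (1 / 2 : ℝ) ^ K < min (δ * (2 / 3)) 1 :=
    exists_pow_lt_of_lt_one (by positivity) (by norm_num)
  have hK1 : (3 / 2 : ℝ) * (1 / 2) ^ K < δ := by
    have := lt_of_lt_of_le hK (min_le_left _ _)
    linarith
  have hK2 : (3 / 2 : ℝ) * (1 / 2) ^ K ≤ 3 / 2 := by
    have := lt_of_lt_of_le hK (min_le_right _ _)
    linarith
  refine ⟨Tp.comp (qK K) - Polynomial.C (Tp.eval (1 / 2)), Q, ?_, hQ0, ?_⟩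
  · rw [Polynomial.coeff_zero_eq_eval_zero, Polynomial.eval_sub, Polynomial.eval_comp,
      qK_zero, Polynomial.eval_C, sub_self]
  · intro θ
    set w := Complex.exp (Complex.I * (uu θ : ℂ)) with hw
    set z := Complex.exp (Complex.I * (θ : ℂ)) with hz
    have hzn : ‖z‖ = 1 := by
      rw [hz, show Complex.I * (θ : ℂ) = (θ : ℂ) * Complex.I by ring,
        Complex.norm_exp_ofReal_mul_I]
    have hwn : ‖w‖ = 1 := by
      rw [hw, show Complex.I * (uu θ : ℂ) = (uu θ : ℂ) * Complex.I by ring,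
        Complex.norm_exp_ofReal_mul_I]
    have hm : z = (2 * w + 1) / (2 + w) := moebius θ
    have hq := qK_approx K hwn
    rw [← hm] at hq
    have hqn : ‖(qK K).eval w‖ ≤ 4 := by
      have := norm_add_le ((qK K).eval w - z) z
      rw [sub_add_cancel, hzn] at this
      linarith
    have h2 := huc ((qK K).eval w) (by simpa using hqn) z (by simp [hzn])
      (by rw [dist_eq_norm]; linarith)
    rw [dist_eq_norm] at h2
    have h3 := ht θ
    rw [hTQ θ] at h3
    rw [Polynomial.eval_sub, Polynomial.eval_comp, Polynomial.eval_C]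
    have e : Tp.eval ((qK K).eval w) - Tp.eval (1 / 2) + 1 +
        Q.eval (Complex.exp (-(Complex.I * (θ : ℂ)))) - E θ =
        (Tp.eval ((qK K).eval w) - Tp.eval z) + (-(Tp.eval (1 / 2) - 1)) +
        (Tp.eval z + Q.eval (Complex.exp (-(Complex.I * (θ : ℂ)))) - E θ) := by ring
    rw [e]
    have n1 := norm_add_le ((Tp.eval ((qK K).eval w) - Tp.eval z) + (-(Tp.eval (1 / 2) - 1)))
      (Tp.eval z + Q.eval (Complex.exp (-(Complex.I * (θ : ℂ)))) - E θ)
    have n2 := norm_add_le (Tp.eval ((qK K).eval w) - Tp.eval z) (-(Tp.eval (1 / 2) - 1))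
    rw [norm_neg] at n2
    linarith

end Pool.Agent.TH195.J189


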